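import Pool.Agent.N620.GP.PR
import Mathlib

set_option autoImplicit false

/-! Dense tables and reals coding sequences of numbers. -/

namespace Pool.Agent.N620.GP

open Encodable Pool.Agent.Helper227

/-- The entry `(σ, i, b)` is in the table `φ`: the string `σ` decides that the `i`-th bit is `b`. -/
def At (φ : ℕ → Bool) (σ : List Bool) (i : ℕ) (b : Bool) : Prop := φ (encode (σ, i, b)) = true

/-- The table `φ` is dense. -/
structure Dns (φ : ℕ → Bool) : Prop where
  mono : ∀ σ τ i b, σ <+: τ → At φ σ i b → At φ τ i b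
  dense : ∀ σ i, ∃ τ b, σ <+: τ ∧ At φ τ i b

/-- The real `g` decides all bits. -/
def Tot (φ g : ℕ → Bool) : Prop := ∀ i, ∃ n b, At φ (pre g n) i b

/-- `φ` is a table for the function `S` over `z`. -/
def Tab (φ z : ℕ → Bool) (S : (ℕ → Bool) → ℕ → Bool) : Prop :=
  Dns φ ∧ ∀ g, Tot φ g → ∀ n j b, At φ (pre g n) (2 * j) b → S (join z g) j = b

theorem Tab.iff {φ z : ℕ → Bool} {S : (ℕ → Bool) → ℕ → Bool} (h : Tab φ z S) {g : ℕ → Bool}
    (hg : Tot φ g) (j : ℕ) (b : Bool) : S (join z g) j = b ↔ ∃ n, At φ (pre g n) (2 * j) b := by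
  constructor
  · intro h1
    obtain ⟨n, b', hn⟩ := hg (2 * j)
    have h2 := h.2 g hg n j b' hn
    rw [h1] at h2
    subst h2
    exact ⟨n, hn⟩
  · rintro ⟨n, hn⟩
    exact h.2 g hg n j b hn

/-- `τ` extends `ρ` and decides the `r`-th bit. -/
def Ok (φ : ℕ → Bool) (r : ℕ) (ρ τ : List Bool) : Prop :=
  τ.take ρ.length = ρ ∧ (At φ τ r true ∨ At φ τ r false)

/-- The string with a given code. -/
def dc (c : ℕ) : List Bool := (decode c).getD []

theorem dc_encode (τ : List Bool) : dc (encode τ) = τ := by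
  unfold dc
  rw [encodek]
  rfl

theorem primrec_dc : Primrec dc :=
  Primrec.option_getD.comp (Primrec.decode (α := List Bool)) (Primrec.const [])

theorem Dns.exists_ok {φ : ℕ → Bool} (h : Dns φ) (r : ℕ) (ρ : List Bool) :
    ∃ c, encode (dc c) = c ∧ Ok φ r ρ (dc c) := by
  obtain ⟨τ, b, h1, h2⟩ := h.dense ρ r
  refine ⟨encode τ, ?_, ?_⟩
  · rw [dc_encode]
  rw [dc_encode]
  refine ⟨(List.prefix_iff_eq_take.1 h1).symm, ?_⟩
  cases b
  · exact Or.inr h2
  · exact Or.inl h2

open Classical in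
/-- The first extension of `ρ` which decides the `r`-th bit. -/
noncomputable def nxt (φ : ℕ → Bool) (r : ℕ) (ρ : List Bool) : List Bool :=
  if h : ∃ c, encode (dc c) = c ∧ Ok φ r ρ (dc c) then dc (Nat.find h) else ρ

theorem nxt_iff {φ : ℕ → Bool} (h : Dns φ) (r : ℕ) (ρ τ : List Bool) :
    (Ok φ r ρ τ ∧ ∀ c < encode τ, ¬ (encode (dc c) = c ∧ Ok φ r ρ (dc c))) ↔
      τ = nxt φ r ρ := by
  classical
  have h1 := h.exists_ok r ρ
  unfold nxt
  rw [dif_pos h1]
  constructor
  · rintro ⟨h2, h3⟩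
    have h4 : Nat.find h1 = encode τ := by
      rw [Nat.find_eq_iff]
      refine ⟨?_, h3⟩
      rw [dc_encode]
      exact ⟨rfl, h2⟩
    rw [h4, dc_encode]
  · rintro rfl
    refine ⟨(Nat.find_spec h1).2, fun c hc => ?_⟩
    rw [(Nat.find_spec h1).1] at hc
    exact Nat.find_min h1 hc

theorem nxt_ok {φ : ℕ → Bool} (h : Dns φ) (r : ℕ) (ρ : List Bool) : Ok φ r ρ (nxt φ r ρ) :=
  ((nxt_iff h r ρ _).2 rfl).1

theorem prefix_nxt {φ : ℕ → Bool} (h : Dns φ) (r : ℕ) (ρ : List Bool) : ρ <+: nxt φ r ρ := by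
  rw [List.prefix_iff_eq_take]
  exact (nxt_ok h r ρ).1.symm

section

variable (φ : ℕ → Bool) (k : ℕ → ℕ)

/-- The strings which code the numbers `k` and decide the bits. -/
noncomputable def U : ℕ → List Bool
  | 0 => []
  | n + 1 => nxt φ n (ex (U n) (k n))

/-- The real which codes the numbers `k`. -/
noncomputable def ug (i : ℕ) : Bool := (U φ k (i + 1)).getD i false

variable {φ k} (h : Dns φ)
include h

theorem ex_prefix_U (n : ℕ) : ex (U φ k n) (k n) <+: U φ k (n + 1) := prefix_nxt h n _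

theorem U_succ (n : ℕ) : U φ k n <+: U φ k (n + 1) :=
  (List.prefix_append _ _).trans (ex_prefix_U h n)

theorem U_le {n n' : ℕ} (hn : n ≤ n') : U φ k n <+: U φ k n' := by
  induction hn with
  | refl => exact List.prefix_rfl
  | step _ ih => exact ih.trans (U_succ h _)

theorem length_U (n : ℕ) : n ≤ (U φ k n).length := by
  induction n with
  | zero => simp
  | succ n ih =>
    have := (ex_prefix_U (k := k) h n).length_le
    rw [length_ex] at this
    omega

theorem ug_eq {σ : List Bool} {n i : ℕ} (hσ : σ <+: U φ k n) (hi : i < σ.length) :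
    ug φ k i = σ.getD i false := by
  have hi' : i < (U φ k n).length := lt_of_lt_of_le hi hσ.length_le
  have h1 : i < (U φ k (i + 1)).length := length_U h (i + 1)
  have h2 : (U φ k n).getD i false = σ.getD i false := Pool.Agent.H685R3.getD_of_prefix hσ hi
  rw [← h2]
  rcases le_total n (i + 1) with h3 | h3
  · exact Pool.Agent.H685R3.getD_of_prefix (U_le h h3) hi'
  · exact (Pool.Agent.H685R3.getD_of_prefix (U_le h h3) h1).symm

theorem pre_ug {σ : List Bool} {n : ℕ} (hσ : σ <+: U φ k n) : pre (ug φ k) σ.length = σ := by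
  refine List.ext_getElem (by simp) fun i h1 h2 => ?_
  rw [getElem_pre, ug_eq h hσ h2]
  simp [h2]

theorem rd_ug (n m : ℕ) : Rd (ug φ k) (U φ k n) m ↔ m = k n := by
  have h1 : ∀ j < k n, ug φ k ((U φ k n).length + j) = false := by
    intro j hj
    rw [ug_eq h (ex_prefix_U h n) (by rw [length_ex]; omega)]
    exact ex_getD_lt hj
  have h2 : ug φ k ((U φ k n).length + k n) = true := by
    rw [ug_eq h (ex_prefix_U h n) (by rw [length_ex]; omega)]
    exact ex_getD_eq
  constructor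
  · rintro ⟨h3, h4⟩
    rcases lt_trichotomy m (k n) with h5 | h5 | h5
    · rw [h1 m h5] at h4
      cases h4
    · exact h5
    · rw [h3 _ h5] at h2
      cases h2
  · rintro rfl
    exact ⟨h1, h2⟩

theorem at_U (n : ℕ) : ∃ b, At φ (U φ k (n + 1)) n b := by
  rcases (nxt_ok h n (ex (U φ k n) (k n))).2 with h1 | h1
  · exact ⟨true, h1⟩
  · exact ⟨false, h1⟩

theorem tot_ug : Tot φ (ug φ k) := by
  intro n
  obtain ⟨b, hb⟩ := at_U (k := k) h n
  refine ⟨(U φ k (n + 1)).length, b, ?_⟩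
  rw [pre_ug h List.prefix_rfl]
  exact hb

theorem tab_iff {z : ℕ → Bool} {S : (ℕ → Bool) → ℕ → Bool} (hT : Tab φ z S) (j : ℕ) (b : Bool) :
    S (join z (ug φ k)) j = b ↔ At φ (U φ k (2 * j + 1)) (2 * j) b := by
  have key : ∀ b, At φ (U φ k (2 * j + 1)) (2 * j) b → S (join z (ug φ k)) j = b := by
    intro b hb
    refine hT.2 _ (tot_ug h) (U φ k (2 * j + 1)).length j b ?_
    rw [pre_ug h List.prefix_rfl]
    exact hb
  refine ⟨fun h1 => ?_, key b⟩
  obtain ⟨b', hb'⟩ := at_U (k := k) h (2 * j)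
  have h2 := key b' hb'
  rw [h1] at h2
  subst h2
  exact hb'

end

/-! ### Decoding -/

/-- `τ` is the first extension of `ρ` which decides the `r`-th bit, according to the relation `Q`
which describes the table. -/
def NxQ (Q : ℕ → Bool → Prop) (r : ℕ) (ρ τ : List Bool) : Prop :=
  (τ.take ρ.length = ρ ∧ (Q (encode (τ, r, true)) true ∨ Q (encode (τ, r, false)) true)) ∧
    ∀ c < encode τ, (¬ encode (dc c) = c ∨ ¬ (dc c).take ρ.length = ρ) ∨
      (Q (encode (dc c, r, true)) false ∧ Q (encode (dc c, r, false)) false)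

theorem nxq_iff {φ : ℕ → Bool} (h : Dns φ) {Q : ℕ → Bool → Prop} (r : ℕ)
    (hQ : ∀ (σ : List Bool) (c b : Bool), Q (encode (σ, r, c)) b ↔ φ (encode (σ, r, c)) = b) (ρ τ : List Bool) :
    NxQ Q r ρ τ ↔ τ = nxt φ r ρ := by
  rw [← nxt_iff h]
  unfold NxQ Ok At
  simp only [hQ]
  refine and_congr Iff.rfl (forall_congr' fun c => forall_congr' fun _ => ?_)
  rw [not_and_or, not_and_or, not_or, Bool.not_eq_true, Bool.not_eq_true, or_assoc]

/-- The strings `H` and the numbers `L` of the first `n` stages, read by means of the relations `K`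
(for the numbers) and `Q` (for the table). -/
def RunQ (K : List Bool → ℕ → ℕ → Prop) (Q : List ℕ → ℕ → Bool → Prop) (n : ℕ)
    (H : List (List Bool)) (L : List ℕ) : Prop :=
  (H.getD 0 [] = [] ∧ L.length = n) ∧ ∀ i < n, K (H.getD i []) i (L.getD i 0) ∧
    NxQ (Q (L.take (i + 1))) i (ex (H.getD i []) (L.getD i 0)) (H.getD (i + 1) [])

section

variable {φ : ℕ → Bool} {k : ℕ → ℕ} {K : List Bool → ℕ → ℕ → Prop} {Q : List ℕ → ℕ → Bool → Prop}

theorem runQ_spec (h : Dns φ) (hK : ∀ i m, K (U φ k i) i m ↔ m = k i)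
    (hQ : ∀ (r : ℕ) (σ : List Bool) (c b : Bool), Q ((List.range (r + 1)).map k) (encode (σ, r, c)) b ↔
      φ (encode (σ, r, c)) = b) {n : ℕ} {H : List (List Bool)} {L : List ℕ}
    (hR : RunQ K Q n H L) : (∀ i ≤ n, H.getD i [] = U φ k i) ∧ L = (List.range n).map k := by
  obtain ⟨⟨h0, hL⟩, h1⟩ := hR
  have key : ∀ i ≤ n, H.getD i [] = U φ k i ∧ L.take i = (List.range i).map k := by
    intro i
    induction i with
    | zero => intro _; exact ⟨h0, by simp⟩
    | succ i ih =>
      intro hi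
      obtain ⟨h2, h3⟩ := ih (by omega)
      obtain ⟨h4, h5⟩ := h1 i (by omega)
      rw [h2, hK] at h4
      have h6 : L.take (i + 1) = (List.range (i + 1)).map k := by
        rw [List.range_succ, List.map_append, ← h3, List.take_add_one]
        congr 1
        have h7 : i < L.length := by omega
        rw [List.getD_eq_getElem _ _ h7] at h4
        simp [h7, h4]
      rw [h2, h4, h6, nxq_iff h i (hQ i)] at h5
      exact ⟨h5, h6⟩
  refine ⟨fun i hi => (key i hi).1, ?_⟩
  have h2 := (key n le_rfl).2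
  rw [← hL, List.take_length] at h2
  rw [h2, hL]

theorem exists_runQ (h : Dns φ) (hK : ∀ i m, K (U φ k i) i m ↔ m = k i)
    (hQ : ∀ (r : ℕ) (σ : List Bool) (c b : Bool), Q ((List.range (r + 1)).map k) (encode (σ, r, c)) b ↔
      φ (encode (σ, r, c)) = b) (n : ℕ) : ∃ H L, RunQ K Q n H L := by
  have hH : ∀ i ≤ n, ((List.range (n + 1)).map (U φ k)).getD i [] = U φ k i := by
    intro i hi
    simp [List.getD, Nat.lt_succ_of_le hi]
  have hL : ∀ i < n, ((List.range n).map k).getD i 0 = k i := by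
    intro i hi
    simp [List.getD, hi]
  refine ⟨(List.range (n + 1)).map (U φ k), (List.range n).map k, ⟨?_, by simp⟩, fun i hi => ?_⟩
  · rw [hH 0 (by omega)]
    rfl
  · rw [hH i (by omega), hH (i + 1) (by omega), hL i hi]
    refine ⟨(hK _ _).2 rfl, ?_⟩
    have h1 : ((List.range n).map k).take (i + 1) = (List.range (i + 1)).map k := by
      rw [← List.map_take, List.take_range]
      congr 2
      omega
    rw [h1, nxq_iff h i (hQ i)]
    rfl

theorem si_nxQ {A : ℕ → Bool} {α : Type*} [Primcodable α] {P : α → ℕ → Bool → Prop}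
    (hP : SI A fun x : α × ℕ × Bool => P x.1 x.2.1 x.2.2) :
    SI A fun x : (α × ℕ) × List Bool × List Bool => NxQ (P x.1.1) x.1.2 x.2.1 x.2.2 := by
  have hext : PrimrecPred fun x : List Bool × List Bool => x.2.take x.1.length = x.1 :=
    Primrec.eq.comp (Primrec.list_take.comp (Primrec.list_length.comp Primrec.fst) Primrec.snd)
      Primrec.fst
  have he : ∀ b : Bool, ∀ c : Bool, SI A fun x : (α × ℕ) × List Bool =>
      P x.1.1 (encode (x.2, x.1.2, c)) b := by
    intro b c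
    refine hP.comp (f := fun x : (α × ℕ) × List Bool => (x.1.1, encode (x.2, x.1.2, c), b)) ?_
    exact (Primrec.fst.comp Primrec.fst).pair ((Primrec.encode.comp (Primrec.snd.pair
      ((Primrec.snd.comp Primrec.fst).pair (Primrec.const c)))).pair (Primrec.const b))
  have hτ : Primrec fun x : (α × ℕ) × List Bool × List Bool => (x.1, x.2.2) :=
    Primrec.fst.pair (Primrec.snd.comp Primrec.snd)
  refine SI.and (SI.and (SI.of_prim ?_) (SI.or ?_ ?_)) ?_
  · exact hext.comp (f := fun x : (α × ℕ) × List Bool × List Bool => (x.2.1, x.2.2)) Primrec.snd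
  · exact (he true true).comp hτ
  · exact (he true false).comp hτ
  · refine SI.all_lt (α := (α × ℕ) × List Bool × List Bool) (p := fun x c =>
      (¬ encode (dc c) = c ∨ ¬ (dc c).take x.2.1.length = x.2.1) ∨
      (P x.1.1 (encode (dc c, x.1.2, true)) false ∧
        P x.1.1 (encode (dc c, x.1.2, false)) false))
      (f := fun x => encode x.2.2) ?_ (Primrec.encode.comp (Primrec.snd.comp Primrec.snd))
    have hd : Primrec fun x : ((α × ℕ) × List Bool × List Bool) × ℕ => (x.1.1, dc x.2) :=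
      (Primrec.fst.comp Primrec.fst).pair (primrec_dc.comp Primrec.snd)
    refine SI.or (SI.of_prim (PrimrecPred.or (PrimrecPred.not ?_) (PrimrecPred.not ?_)))
      (SI.and ?_ ?_)
    · exact Primrec.eq.comp (Primrec.encode.comp (primrec_dc.comp Primrec.snd)) Primrec.snd
    · exact hext.comp (f := fun x : ((α × ℕ) × List Bool × List Bool) × ℕ =>
        (x.1.2.1, dc x.2))
        ((Primrec.fst.comp (Primrec.snd.comp Primrec.fst)).pair (primrec_dc.comp Primrec.snd))
    · exact (he false true).comp hd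
    · exact (he false false).comp hd

theorem si_runQ {A : ℕ → Bool} (hK : SI A fun x : List Bool × ℕ × ℕ => K x.1 x.2.1 x.2.2)
    (hQ : SI A fun x : List ℕ × ℕ × Bool => Q x.1 x.2.1 x.2.2) :
    SI A fun x : ℕ × List (List Bool) × List ℕ => RunQ K Q x.1 x.2.1 x.2.2 := by
  have hH : Primrec fun x : ℕ × List (List Bool) × List ℕ => x.2.1 := Primrec.fst.comp Primrec.snd
  have hL : Primrec fun x : ℕ × List (List Bool) × List ℕ => x.2.2 := Primrec.snd.comp Primrec.snd
  refine SI.and (SI.of_prim (PrimrecPred.and ?_ ?_)) ?_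
  · exact Primrec.eq.comp ((Primrec.list_getD []).comp hH (Primrec.const 0)) (Primrec.const [])
  · exact Primrec.eq.comp (Primrec.list_length.comp hL) Primrec.fst
  · refine SI.all_lt (α := ℕ × List (List Bool) × List ℕ) (p := fun x i =>
      K (x.2.1.getD i []) i (x.2.2.getD i 0) ∧ NxQ (Q (x.2.2.take (i + 1))) i
        (ex (x.2.1.getD i []) (x.2.2.getD i 0)) (x.2.1.getD (i + 1) [])) (f := fun x => x.1) ?_
        Primrec.fst
    have hi : Primrec fun x : (ℕ × List (List Bool) × List ℕ) × ℕ => x.2 := Primrec.snd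
    have hHi : Primrec fun x : (ℕ × List (List Bool) × List ℕ) × ℕ => x.1.2.1.getD x.2 [] :=
      (Primrec.list_getD []).comp (hH.comp Primrec.fst) Primrec.snd
    have hHi' : Primrec fun x : (ℕ × List (List Bool) × List ℕ) × ℕ => x.1.2.1.getD (x.2 + 1) [] :=
      (Primrec.list_getD []).comp (hH.comp Primrec.fst) (Primrec.succ.comp Primrec.snd)
    have hLi : Primrec fun x : (ℕ × List (List Bool) × List ℕ) × ℕ => x.1.2.2.getD x.2 0 :=
      (Primrec.list_getD 0).comp (hL.comp Primrec.fst) Primrec.snd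
    have hLt : Primrec fun x : (ℕ × List (List Bool) × List ℕ) × ℕ => x.1.2.2.take (x.2 + 1) :=
      Primrec.list_take.comp (Primrec.succ.comp Primrec.snd) (hL.comp Primrec.fst)
    refine SI.and ?_ ?_
    · exact hK.comp (hHi.pair (hi.pair hLi))
    · exact (si_nxQ (P := Q) hQ).comp (f := fun x : (ℕ × List (List Bool) × List ℕ) × ℕ =>
        ((x.1.2.2.take (x.2 + 1), x.2), ex (x.1.2.1.getD x.2 []) (x.1.2.2.getD x.2 0),
          x.1.2.1.getD (x.2 + 1) []))
        ((hLt.pair hi).pair ((primrec_ex.comp hHi hLi).pair hHi'))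

theorem si_U (h : Dns φ) (hK : ∀ i m, K (U φ k i) i m ↔ m = k i)
    (hQ : ∀ (r : ℕ) (σ : List Bool) (c b : Bool), Q ((List.range (r + 1)).map k) (encode (σ, r, c)) b ↔
      φ (encode (σ, r, c)) = b) {A : ℕ → Bool}
    (hK' : SI A fun x : List Bool × ℕ × ℕ => K x.1 x.2.1 x.2.2)
    (hQ' : SI A fun x : List ℕ × ℕ × Bool => Q x.1 x.2.1 x.2.2) :
    SI A fun x : ℕ × List Bool => x.2 = U φ k x.1 := by
  have h1 : SI A fun x : ℕ × List Bool => ∃ y : List (List Bool) × List ℕ,
      RunQ K Q x.1 y.1 y.2 ∧ x.2 = y.1.getD x.1 [] := by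
    refine SI.ex (p := fun (x : ℕ × List Bool) (y : List (List Bool) × List ℕ) =>
      RunQ K Q x.1 y.1 y.2 ∧ x.2 = y.1.getD x.1 []) (SI.and ?_ (SI.of_prim ?_))
    · exact (si_runQ hK' hQ').comp (f := fun x : (ℕ × List Bool) × List (List Bool) × List ℕ =>
        (x.1.1, x.2)) ((Primrec.fst.comp Primrec.fst).pair Primrec.snd)
    · exact Primrec.eq.comp (Primrec.snd.comp Primrec.fst) ((Primrec.list_getD []).comp
        (Primrec.fst.comp Primrec.snd) (Primrec.fst.comp Primrec.fst))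
  refine h1.of_eq fun x => ?_
  constructor
  · rintro ⟨y, hy, h2⟩
    rw [h2, (runQ_spec h hK hQ hy).1 _ le_rfl]
  · intro h2
    obtain ⟨H, L, hR⟩ := exists_runQ h hK hQ x.1
    refine ⟨(H, L), hR, ?_⟩
    rw [(runQ_spec h hK hQ hR).1 _ le_rfl]
    exact h2

theorem si_k (h : Dns φ) (hK : ∀ i m, K (U φ k i) i m ↔ m = k i)
    (hQ : ∀ (r : ℕ) (σ : List Bool) (c b : Bool), Q ((List.range (r + 1)).map k) (encode (σ, r, c)) b ↔
      φ (encode (σ, r, c)) = b) {A : ℕ → Bool}
    (hK' : SI A fun x : List Bool × ℕ × ℕ => K x.1 x.2.1 x.2.2)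
    (hQ' : SI A fun x : List ℕ × ℕ × Bool => Q x.1 x.2.1 x.2.2) :
    SI A fun x : ℕ × ℕ => x.2 = k x.1 := by
  have h1 : SI A fun x : ℕ × ℕ => ∃ σ : List Bool, σ = U φ k x.1 ∧ K σ x.1 x.2 := by
    refine SI.ex (p := fun (x : ℕ × ℕ) (σ : List Bool) => σ = U φ k x.1 ∧ K σ x.1 x.2)
      (SI.and ?_ ?_)
    · exact (si_U h hK hQ hK' hQ').comp (f := fun x : (ℕ × ℕ) × List Bool => (x.1.1, x.2))
        ((Primrec.fst.comp Primrec.fst).pair Primrec.snd)
    · exact hK'.comp (f := fun x : (ℕ × ℕ) × List Bool => (x.2, x.1.1, x.1.2))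
        (Primrec.snd.pair Primrec.fst)
  refine h1.of_eq fun x => ?_
  constructor
  · rintro ⟨σ, rfl, h2⟩
    exact (hK _ _).1 h2
  · intro h2
    exact ⟨_, rfl, (hK _ _).2 h2⟩

theorem si_at (h : Dns φ) (hK : ∀ i m, K (U φ k i) i m ↔ m = k i)
    (hQ : ∀ (r : ℕ) (σ : List Bool) (c b : Bool), Q ((List.range (r + 1)).map k) (encode (σ, r, c)) b ↔
      φ (encode (σ, r, c)) = b) {A : ℕ → Bool}
    (hK' : SI A fun x : List Bool × ℕ × ℕ => K x.1 x.2.1 x.2.2)
    (hQ' : SI A fun x : List ℕ × ℕ × Bool => Q x.1 x.2.1 x.2.2) :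
    SI A fun x : ℕ × Bool => At φ (U φ k (x.1 + 1)) x.1 x.2 := by
  have h1 : SI A fun x : ℕ × Bool => ∃ y : List (List Bool) × List ℕ,
      RunQ K Q (x.1 + 1) y.1 y.2 ∧ Q y.2 (encode (y.1.getD (x.1 + 1) [], x.1, x.2)) true := by
    refine SI.ex (p := fun (x : ℕ × Bool) (y : List (List Bool) × List ℕ) =>
      RunQ K Q (x.1 + 1) y.1 y.2 ∧ Q y.2 (encode (y.1.getD (x.1 + 1) [], x.1, x.2)) true)
      (SI.and ?_ ?_)
    · exact (si_runQ hK' hQ').comp (f := fun x : (ℕ × Bool) × List (List Bool) × List ℕ =>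
        (x.1.1 + 1, x.2)) ((Primrec.succ.comp (Primrec.fst.comp Primrec.fst)).pair Primrec.snd)
    · refine hQ'.comp (f := fun x : (ℕ × Bool) × List (List Bool) × List ℕ =>
        (x.2.2, encode (x.2.1.getD (x.1.1 + 1) [], x.1.1, x.1.2), true)) ?_
      exact (Primrec.snd.comp Primrec.snd).pair ((Primrec.encode.comp
        (((Primrec.list_getD []).comp (Primrec.fst.comp Primrec.snd)
          (Primrec.succ.comp (Primrec.fst.comp Primrec.fst))).pair Primrec.fst)).pair
            (Primrec.const true))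
  refine h1.of_eq fun x => ?_
  constructor
  · rintro ⟨y, hy, h2⟩
    obtain ⟨h3, h4⟩ := runQ_spec h hK hQ hy
    rw [h3 _ le_rfl, h4, hQ] at h2
    exact h2
  · intro h2
    obtain ⟨H, L, hR⟩ := exists_runQ h hK hQ (x.1 + 1)
    refine ⟨(H, L), hR, ?_⟩
    obtain ⟨h3, h4⟩ := runQ_spec h hK hQ hR
    simp only
    rw [h3 _ le_rfl, h4, hQ]
    exact h2

end

end Pool.Agent.N620.GP
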