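import Pool.Agent.N620.GP.Lm

set_option autoImplicit false

/-! Measurability, and cones. -/

namespace Pool.Agent.N620.GP

open Encodable Pool.Agent.Helper227
open Pool.Agent.H685R3 (Halt jump_iff s1_Halt US TuringInvariant Determined)
open Pool.Agent.N620.WP (J pre_eq_iff join_cone cone_of_determined)
open Pool.Agent.N620.RC (cl cl_J Tr)

/-! ### Measurability -/

theorem measurableSet_pre (P : ℕ → List Bool → Prop) :
    MeasurableSet {z : ℕ → Bool | ∃ k, P k (pre z k)} := by
  refine IsOpen.measurableSet ?_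
  rw [isOpen_iff_mem_nhds]
  rintro z ⟨k, hk⟩
  refine Filter.mem_of_superset ((Pool.Agent.N620.WP.isOpen_pre z k).mem_nhds rfl) fun y hy => ?_
  refine ⟨k, ?_⟩
  have h1 : pre y k = pre z k := hy
  rw [h1]
  exact hk

theorem measurable_of_true {F : (ℕ → Bool) → ℕ → Bool}
    (h : ∀ n, MeasurableSet {z | F z n = true}) : Measurable F :=
  measurable_pi_iff.2 fun n => measurable_to_bool (h n)

theorem measurable_jump : Measurable jump := by
  refine measurable_of_true fun n => ?_
  have h1 : {z : ℕ → Bool | jump z n = true} = {z | ∃ k, Halt n (pre z k)} := by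
    ext z
    exact jump_iff
  rw [h1]
  exact measurableSet_pre fun _ => Halt n

theorem measurable_wr (e : ℕ) : Measurable fun z => WR z e := by
  refine measurable_of_true fun n => ?_
  have h1 : {z : ℕ → Bool | WR z e n = true} = {z | ∃ k,
      ((Denumerable.ofNat Nat.Partrec.Code e).eval (encode (pre z k, n))).Dom} := by
    ext z
    exact wr_iff
  rw [h1]
  exact measurableSet_pre fun _ ρ =>
    ((Denumerable.ofNat Nat.Partrec.Code e).eval (encode (ρ, n))).Dom

theorem measurable_J {F : ℕ → (ℕ → Bool) → ℕ → Bool} (hF : ∀ n, Measurable (F n)) :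
    Measurable fun z => J fun n => F n z :=
  measurable_pi_iff.2 fun m => (measurable_pi_apply m.unpair.2).comp (hF m.unpair.1)

theorem measurable_dd : Measurable dd := measurable_J measurable_wr

theorem measurable_rx (f : ℕ → ℕ × Bool) {F : (ℕ → Bool) → ℕ → Bool} (hF : Measurable F) :
    Measurable fun z => Rx f (F z) :=
  measurable_pi_iff.2 fun m => (measurable_of_finite fun b : Bool => xor b (f m).2).comp
    ((measurable_pi_apply (f m).1).comp hF)

theorem measurable_jump_iter (n : ℕ) : Measurable fun z => jump^[n] z := by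
  induction n with
  | zero => exact measurable_id
  | succ n ih =>
    simp only [Function.iterate_succ', Function.comp]
    exact measurable_jump.comp ih

/-! ### Cones -/

variable {B : Set (ℕ → Bool)}

/-- The Turing saturation. -/
def Sat (P : Set (ℕ → Bool)) : Set (ℕ → Bool) := {z | ∃ y ∈ P, TLe y z ∧ TLe z y}

theorem inv_Sat (P : Set (ℕ → Bool)) : TuringInvariant (Sat P) := by
  rintro x y h1 h2 ⟨x', hx', h3, h4⟩
  exact ⟨x', hx', TLe.trans h3 h1, TLe.trans h2 h4⟩

/-- All the sets of degrees attached to `B` are determined. -/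
def DetB (B : Set (ℕ → Bool)) : Prop :=
  ∀ T : (ℕ → Bool) → ℕ → Bool, Measurable T → Determined (Sat (AT B T))

theorem uu_of_co (hD : DetB B) {T T' : (ℕ → Bool) → ℕ → Bool} (hT : Measurable T) (h : Co B T)
    (hle : ∀ z y, TLe z y → TLe y z → TLe (T' z) (T y)) : UU B T' := by
  obtain ⟨w, hw | hw⟩ := cone_of_determined (inv_Sat (AT B T)) (hD T hT)
  · refine ⟨w, fun z hz => ?_⟩
    obtain ⟨y, ⟨X, hX, h1⟩, h2, h3⟩ := hw z hz
    refine ⟨X, hX.trans h2, (hle z y h3 h2).trans (h1.trans (join_tLe (tLe_join_left _ _) ?_))⟩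
    exact h2.trans (tLe_join_right _ _)
  · obtain ⟨z, h1, h2⟩ := h w
    exact absurd ⟨z, h2, TLe.refl z, TLe.refl z⟩ (hw z h1)

theorem UU.mono {T T' : (ℕ → Bool) → ℕ → Bool} (h : UU B T) (v : ℕ → Bool)
    (hle : ∀ z, TLe v z → TLe (T' z) (join (T z) z)) : UU B T' := by
  obtain ⟨w, hw⟩ := h
  refine ⟨join w v, fun z hz => ?_⟩
  obtain ⟨X, hX, h1⟩ := hw z ((tLe_join_left w v).trans hz)
  exact ⟨X, hX, (hle z ((tLe_join_right w v).trans hz)).trans
    (join_tLe h1 (tLe_join_right _ _))⟩

end Pool.Agent.N620.GP
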