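import Pool.Agent.N620.GP.Cn

set_option autoImplicit false

/-! Sets which are bounded by Borel functions; the two alternatives exclude each other. -/

namespace Pool.Agent.N620.GP

open Encodable Pool.Agent.Helper227
open MeasureTheory
open Pool.Agent.N620.WP (J)
open Pool.Agent.N620.RC (cl cl_J Tr HB UM Exc exceeds_hb exceeds_um)

theorem not_jump_le (A : ℕ → Bool) : ¬ TLe (jump A) A := by
  intro h
  have h1 : SI A fun n : ℕ => jump A n = false :=
    ((SI.query (B := jump A)).trans h).comp (f := fun n : ℕ => (n, false))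
      (Primrec.id.pair (Primrec.const false))
  have h2 : CEIn A {n | jump A n = false} := SI.iff_ceIn.2 h1
  obtain ⟨e, he⟩ := ceIn_iff_exists_WE.1 h2
  have h3 : e ∈ WE A e ↔ jump A e = false := by
    rw [← he]
    rfl
  rw [← jump_eq_true] at h3
  cases h4 : jump A e <;> rw [h4] at h3 <;> simp at h3

variable {B : Set (ℕ → Bool)}

theorem excl {F : (ℕ → Bool) → ℕ → Bool} (hF : Measurable F) {w : ℕ → Bool}
    (h : ∀ z, TLe w z → ∀ X, TLe X z → TLe (Tr B X) (F z))
    (h' : ∀ S : (ℕ → Bool) → ℕ → Bool, Measurable S → UU B S) : False := by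
  obtain ⟨w', hw'⟩ := h' (fun z => jump (join (F z) z))
    (measurable_jump.comp (measurable_join hF measurable_id))
  obtain ⟨X, hX, h1⟩ := hw' (join w w') (tLe_join_right _ _)
  refine not_jump_le _ (h1.trans (join_tLe ((h _ (tLe_join_left _ _) X hX).trans ?_) ?_))
  · exact tLe_join_left _ _
  · exact tLe_join_right _ _

/-- The set coding the values of `F`. -/
def Cd (F : (ℕ → Bool) → ℕ → Bool) : Set (ℕ → Bool) :=
  {x | ∃ k, evn x k = true ∧ F (odd' x) k = true}

theorem measurableSet_Cd {F : (ℕ → Bool) → ℕ → Bool} (hF : Measurable F) :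
    MeasurableSet (Cd F) := by
  have h1 : Cd F = ⋃ k : ℕ, {x | evn x k = true} ∩ {x | F (odd' x) k = true} := by
    ext x
    simp [Cd]
  rw [h1]
  refine MeasurableSet.iUnion fun k => MeasurableSet.inter ?_ ?_
  · have h2 : Measurable fun x : ℕ → Bool => x (2 * k) := measurable_pi_apply (2 * k)
    exact h2 (MeasurableSet.singleton true)
  · have h2 : Measurable fun x : ℕ → Bool => odd' x :=
      measurable_pi_iff.2 fun n => measurable_pi_apply (2 * n + 1)
    exact ((measurable_pi_iff.1 (hF.comp h2)) k) (MeasurableSet.singleton true)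

/-- The singleton of `k`. -/
def sg (k : ℕ) : ℕ → Bool := fun n => decide (n = k)

theorem le_sg (z : ℕ → Bool) : TLe (J fun k => join (sg k) z) z := by
  rw [tLe_iff_SI]
  have h2 : SI z fun x : ℕ × Bool =>
      (x.1.unpair.2 % 2 = 0 ∧ decide (x.1.unpair.2 / 2 = x.1.unpair.1) = x.2) ∨
      (¬ x.1.unpair.2 % 2 = 0 ∧ z (x.1.unpair.2 / 2) = x.2) := by
    have hu : Primrec fun x : ℕ × Bool => x.1.unpair := Primrec.unpair.comp Primrec.fst
    have hm : PrimrecPred fun x : ℕ × Bool => x.1.unpair.2 % 2 = 0 :=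
      Primrec.eq.comp (Primrec.nat_mod.comp (Primrec.snd.comp hu) (Primrec.const 2))
        (Primrec.const 0)
    have hh : Primrec fun x : ℕ × Bool => x.1.unpair.2 / 2 :=
      Primrec.nat_div.comp (Primrec.snd.comp hu) (Primrec.const 2)
    refine SI.or (SI.of_prim (PrimrecPred.and hm ?_)) (SI.and (SI.of_prim hm.not) ?_)
    · have h3 : PrimrecPred fun x : ℕ × Bool => x.1.unpair.2 / 2 = x.1.unpair.1 :=
        Primrec.eq.comp hh (Primrec.fst.comp hu)
      exact Primrec.eq.comp h3.decide Primrec.snd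
    · exact SI.query.comp (f := fun x : ℕ × Bool => (x.1.unpair.2 / 2, x.2))
        (hh.pair Primrec.snd)
  refine h2.of_eq fun x => ?_
  simp only [J, join, sg]
  by_cases h3 : x.1.unpair.2 % 2 = 0
  · simp [h3]
  · simp [h3]

theorem tr_Cd (F : (ℕ → Bool) → ℕ → Bool) (z : ℕ → Bool) :
    Tr (Cd F) (J fun k => join (sg k) z) = F z := by
  funext k
  have h1 : (join (sg k) z ∈ Cd F) ↔ F z k = true := by
    unfold Cd
    have h0 : odd' (join (sg k) z) = z := funext fun n => join_odd (sg k) z n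
    rw [Set.mem_ofPred_eq, evn_join, h0]
    constructor
    · rintro ⟨k', h1, h2⟩
      have h3 : k' = k := by simpa [sg] using h1
      rw [← h3]
      exact h2
    · intro h1
      exact ⟨k, by simp [sg], h1⟩
  have h2 : Tr (Cd F) (J fun k => join (sg k) z) k = true ↔ F z k = true := by
    simp only [Tr, decide_eq_true_eq, cl_J]
    exact h1
  cases h3 : F z k <;> cases h4 : Tr (Cd F) (J fun k => join (sg k) z) k <;> simp_all

theorem hb_Cd {F : (ℕ → Bool) → ℕ → Bool} (hF : Measurable F) : HB (Cd F) :=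
  fun _ hg => ((measurableSet_Cd hF).preimage hg).baireMeasurableSet

theorem um_Cd {F : (ℕ → Bool) → ℕ → Bool} (hF : Measurable F) : UM (Cd F) :=
  fun _ _ => (measurableSet_Cd hF).nullMeasurableSet

theorem not_exc {F : (ℕ → Bool) → ℕ → Bool} {w : ℕ → Bool}
    (h : ∀ z, TLe w z → ∀ X, TLe X z → TLe (Tr B X) (F z)) {z : ℕ → Bool} (hz : TLe w z) :
    ¬ Exc B (Cd F) z := by
  rintro ⟨X, hX, h1⟩
  obtain ⟨-, h2⟩ := h1 _ (le_sg z)
  rw [tr_Cd] at h2
  exact h2 (join_tLe ((h z hz X hX).trans (tLe_join_left _ _)) (tLe_join_right _ _))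

theorem hb_of_bound {F : (ℕ → Bool) → ℕ → Bool} (hF : Measurable F) {w : ℕ → Bool}
    (h : ∀ z, TLe w z → ∀ X, TLe X z → TLe (Tr B X) (F z)) : HB B := by
  by_contra hB
  obtain ⟨z, hz, h1⟩ := exceeds_hb hB (hb_Cd hF) w
  exact not_exc h hz h1

theorem um_of_bound {F : (ℕ → Bool) → ℕ → Bool} (hF : Measurable F) {w : ℕ → Bool}
    (h : ∀ z, TLe w z → ∀ X, TLe X z → TLe (Tr B X) (F z)) : UM B := by
  by_contra hB
  obtain ⟨z, hz, h1⟩ := exceeds_um hB (um_Cd hF) w
  exact not_exc h hz h1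

end Pool.Agent.N620.GP
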