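import Pool.Agent.N620.GP.Ss

set_option autoImplicit false

/-! The gap theorem. -/

namespace Pool.Agent.N620.GP

open Encodable Pool.Agent.Helper227
open Pool.Agent.H685R3 (Halt jump_iff s1_Halt US TuringInvariant Determined)
open Pool.Agent.N620.WP (J)
open Pool.Agent.N620.RC (cl cl_J Tr)

variable {B C : Set (ℕ → Bool)}

/-- The traces of `B` are bounded by `T` on a cone. -/
def Bdd (B : Set (ℕ → Bool)) (T : (ℕ → Bool) → ℕ → Bool) : Prop :=
  ∃ w, ∀ z, TLe w z → ∀ X, TLe X z → TLe (Tr B X) (T z)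

theorem Bdd.mono {T T' : (ℕ → Bool) → ℕ → Bool} (h : Bdd B T) (hle : ∀ z, TLe (T z) (T' z)) :
    Bdd B T' := by
  obtain ⟨w, hw⟩ := h
  exact ⟨w, fun z hz X hX => (hw z hz X hX).trans (hle z)⟩

/-- The successor step. -/
theorem gap_succ (hD : DetB B) {T : (ℕ → Bool) → ℕ → Bool} (hT : HS T) (hn : ¬ Bdd B T)
    (hU : UU B T) : UU B fun z => jump (T z) := by
  obtain ⟨F, hF, hF'⟩ := hT.ss.tab
  have h1 : UU B F := hU.mono (fun _ => false) fun z _ => (hF'.tLe z).trans (tLe_join_left _ _)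
  refine uu_of_co hD (hT.jump.meas) (co_jump (F := F) ?_ hF h1) fun z y h2 _ => (hT.ss.le h2).jump
  intro w
  by_contra hcon
  push Not at hcon
  refine hn ⟨w, fun z hz X hX => (hcon z hz X hX).trans (join_tLe (hF'.tLe z) ?_)⟩
  exact hT.ss.self.tLe z

/-- The limit step. -/
theorem gap_lim (hD : DetB B) {T : ℕ → (ℕ → Bool) → ℕ → Bool} {c : ℕ → Bool}
    (hT : ∀ n, HS (T n)) (hS : SS fun z => join c (J fun n => T n z))
    (hU : ∀ n, UU B fun z => jump (T n z)) : UU B fun z => join c (J fun n => T n z) := by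
  choose F hF hF' using fun n => (hT n).ss.tab
  have h1 : ∀ n, UU B fun z => F n (dd z) := fun n =>
    (hU n).mono (fun _ => false) fun z _ => (((hF' n).tLe (dd z)).trans
      ((hT n).ss.dd.tLe z)).trans (tLe_join_left _ _)
  have h2 : Co B fun z => J fun n => T n z := co_join hF h1
  refine uu_of_co hD (HS.sum c hT hS).meas ?_ fun z y h3 _ => hS.le h3
  intro v
  obtain ⟨z, hz, X, hX, h3⟩ := h2 (join v c)
  refine ⟨z, (tLe_join_left v c).trans hz, X, hX, join_tLe ?_ h3⟩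
  exact ((tLe_join_right v c).trans hz).trans (tLe_join_right _ _)

theorem uu_id (B : Set (ℕ → Bool)) : UU B fun z => z :=
  ⟨fun _ => false, fun z _ => ⟨z, TLe.refl z, tLe_join_right _ _⟩⟩

theorem sum_le {T : ℕ → (ℕ → Bool) → ℕ → Bool} (c : ℕ → Bool) (n : ℕ) (z : ℕ → Bool) :
    TLe (T n z) (join c (J fun n => T n z)) :=
  ((UR.cJ T n).tLe z).trans (tLe_join_right _ _)

/-- The gap theorem. -/
theorem gap (hD : DetB B) {T : (ℕ → Bool) → ℕ → Bool} (hT : HS T) (hn : ¬ Bdd B T) :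
    UU B T ∧ UU B fun z => jump (T z) := by
  have key : UU B T → UU B T ∧ UU B fun z => jump (T z) := fun h => ⟨h, gap_succ hD hT hn h⟩
  refine key ?_
  clear key
  induction hT with
  | id => exact uu_id B
  | @jump T1 hT1 ih =>
    have h1 : ¬ Bdd B T1 := fun h => hn (h.mono fun z => tLe_jump _)
    exact gap_succ hD hT1 h1 (ih h1)
  | @sum T1 c hT1 hS ih =>
    have h1 : ∀ n, ¬ Bdd B (T1 n) := fun n h => hn (h.mono fun z => sum_le c n z)
    exact gap_lim hD hT1 hS fun n => gap_succ hD (hT1 n) (h1 n) (ih n (h1 n))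

/-- Bounded sets are exactly at some level of the hierarchy. -/
theorem exists_exact (hD : DetB B) {T : (ℕ → Bool) → ℕ → Bool} (hT : HS T) (hb : Bdd B T) :
    ∃ T', HS T' ∧ Bdd B T' ∧ UU B T' := by
  induction hT with
  | id => exact ⟨_, HS.id, hb, uu_id B⟩
  | @jump T1 hT1 ih =>
    by_cases h1 : Bdd B T1
    · exact ih h1
    · exact ⟨_, hT1.jump, hb, (gap hD hT1 h1).2⟩
  | @sum T1 c hT1 hS ih =>
    by_cases h1 : ∃ n, Bdd B (T1 n)
    · obtain ⟨n, h1⟩ := h1
      exact ih n h1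
    · push Not at h1
      exact ⟨_, HS.sum c hT1 hS, hb, gap_lim hD hT1 hS fun n => (gap hD (hT1 n) (h1 n)).2⟩

/-! ### Borel functions -/

open Classical in
/-- The characteristic function of a set. -/
noncomputable def ch (P : Set (ℕ → Bool)) (z : ℕ → Bool) : ℕ → Bool := fun _ => decide (z ∈ P)

/-- The sets which are described by the functions in the hierarchy. -/
def Rep (P : Set (ℕ → Bool)) : Prop := ∃ T, HS T ∧ UR (ch P) T

theorem UR.of_const {I : Type} (b : Bool) (G : I → ℕ → Bool) : UR (fun _ _ => b) G :=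
  ⟨fun _ x => b = x.2, US.of_prim (Primrec.eq.comp (Primrec.const b) Primrec.snd),
    fun _ _ _ => Iff.rfl⟩

theorem exists_sum {T : ℕ → (ℕ → Bool) → ℕ → Bool} {F : ℕ → (ℕ → Bool) → ℕ → Bool}
    (hT : ∀ n, HS (T n)) (hF : ∀ n, UR (F n) (T n)) :
    ∃ T', HS T' ∧ UR (fun z => J fun n => F n z) T' := by
  obtain ⟨c0, h0⟩ := UR.J hF
  obtain ⟨c, hc⟩ := SS.sum (fun n => (hT n).ss) c0
  refine ⟨_, HS.sum _ hT hc, h0.trans (UR.join ?_ (UR.right _ _))⟩
  exact (UR.left (fun _ => c0) fun _ => c).trans (UR.left _ _)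

theorem rep_empty : Rep ∅ := by
  refine ⟨_, HS.id, ?_⟩
  have h1 : ch ∅ = fun _ _ => false := by
    funext z n
    simp [ch]
  rw [h1]
  exact UR.of_const false _

theorem Rep.compl {P : Set (ℕ → Bool)} (h : Rep P) : Rep Pᶜ := by
  obtain ⟨T, hT, h1⟩ := h
  refine ⟨T, hT, (UR.of_rx (f := fun m => (m, true)) (Primrec.id.pair (Primrec.const true))
    fun z => ?_).trans h1⟩
  funext m
  by_cases h2 : z ∈ P <;> simp [ch, Rx, h2]

theorem Rep.iUnion {P : ℕ → Set (ℕ → Bool)} (h : ∀ n, Rep (P n)) : Rep (⋃ n, P n) := by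
  choose T hT h1 using h
  obtain ⟨T', hT', h2⟩ := exists_sum hT h1
  have h3 : US fun y (_ : ℕ) => ∃ n : ℕ, y (Nat.pair n 0) = true :=
    US.ex (p := fun y (_ : ℕ) (n : ℕ) => y (Nat.pair n 0) = true)
      (US.query.comp (f := fun x : ℕ × ℕ => (Nat.pair x.2 0, true))
        ((Primrec₂.natPair.comp Primrec.snd (Primrec.const 0)).pair (Primrec.const true)))
  obtain ⟨f, -, h4⟩ := h3.to_jump
  refine ⟨_, hT'.jump, UR.trans ?_ h2.jump⟩
  refine UR.of_index (f := fun _ => f 0) (Primrec.const (f 0)) fun z m => ?_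
  have h5 : ch (⋃ n, P n) z m = true ↔ jump (J fun n => ch (P n) z) (f 0) = true := by
    refine Iff.trans ?_ (h4 (J fun n => ch (P n) z) 0)
    simp [ch, J]
  cases h6 : ch (⋃ n, P n) z m <;> cases h7 : jump (J fun n => ch (P n) z) (f 0) <;> simp_all

/-- The described sets form a sigma algebra. -/
@[instance_reducible]
def repS : MeasurableSpace (ℕ → Bool) where
  MeasurableSet' := Rep
  measurableSet_empty := rep_empty
  measurableSet_compl := fun _ h => h.compl
  measurableSet_iUnion := fun _ h => Rep.iUnion h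

theorem rep_of_measurable {P : Set (ℕ → Bool)} (hP : MeasurableSet P) : Rep P := by
  have h1 : (MeasurableSpace.pi : MeasurableSpace (ℕ → Bool)) ≤ repS := by
    refine iSup_le fun n => ?_
    rw [← measurable_iff_comap_le]
    refine @measurable_to_bool _ repS _ ?_
    refine ⟨_, HS.id, UR.of_index (f := fun _ => n) (Primrec.const n) fun z m => ?_⟩
    simp [ch]
  exact h1 P hP

theorem exists_hs {S : (ℕ → Bool) → ℕ → Bool} (hS : Measurable S) : ∃ T, HS T ∧ UR S T := by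
  choose T hT h1 using fun n => rep_of_measurable
    (P := {z | S z n = true}) ((measurable_pi_iff.1 hS n) (MeasurableSet.singleton true))
  obtain ⟨T', hT', h2⟩ := exists_sum hT h1
  refine ⟨T', hT', (UR.of_index (f := fun n => Nat.pair n 0)
    (Primrec₂.natPair.comp Primrec.id (Primrec.const 0)) fun z n => ?_).trans h2⟩
  simp only [J, Nat.unpair_pair, ch, Set.mem_ofPred_eq]
  cases S z n <;> simp

/-! ### Comparison -/

/-- Bounded by a Borel function. -/
def BB (B : Set (ℕ → Bool)) : Prop := ∃ F : (ℕ → Bool) → ℕ → Bool, Measurable F ∧ Bdd B F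

theorem BB.hs (h : BB B) : ∃ T, HS T ∧ Bdd B T := by
  obtain ⟨F, hF, h1⟩ := h
  obtain ⟨T, hT, h2⟩ := exists_hs hF
  exact ⟨T, hT, h1.mono h2.tLe⟩

/-- Sets which are not bounded by Borel functions bound all Borel functions. -/
theorem above (hD : DetB B) (hB : ¬ BB B) {S : (ℕ → Bool) → ℕ → Bool} (hS : Measurable S) :
    ∃ w, ∀ z, TLe w z → ∃ X, TLe X z ∧ ∀ y, TLe y z → TLe (S y) (join (Tr B X) z) := by
  obtain ⟨T, hT, h1⟩ := exists_hs hS
  obtain ⟨w, hw⟩ := (gap hD hT fun h => hB ⟨T, hT.meas, h⟩).1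
  refine ⟨w, fun z hz => ?_⟩
  obtain ⟨X, hX, h2⟩ := hw z hz
  exact ⟨X, hX, fun y hy => ((h1.tLe y).trans (hT.ss.le hy)).trans h2⟩

theorem not_bb_of_above (h : ∀ S : (ℕ → Bool) → ℕ → Bool, Measurable S → ∃ w, ∀ z, TLe w z →
    ∃ X, TLe X z ∧ ∀ y, TLe y z → TLe (S y) (join (Tr B X) z)) : ¬ BB B := by
  rintro ⟨F, hF, w, hw⟩
  refine excl hF hw fun S hS => ?_
  obtain ⟨w', hw'⟩ := h S hS
  refine ⟨w', fun z hz => ?_⟩
  obtain ⟨X, hX, h1⟩ := hw' z hz
  exact ⟨X, hX, h1 z (TLe.refl z)⟩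

/-- Comparison of an arbitrary set and a bounded set. -/
theorem compare (hB : DetB B) (hC : DetB C) (h : BB C) :
    (∃ w, ∀ z, TLe w z → ∃ Y, TLe Y z ∧ ∀ X, TLe X z → TLe (Tr B X) (join (Tr C Y) z)) ∨
    ∃ w, ∀ z, TLe w z → ∃ X, TLe X z ∧ ∀ Y, TLe Y z →
      TLe (jump (join (Tr C Y) z)) (join (Tr B X) z) := by
  obtain ⟨T0, hT0, h0⟩ := h.hs
  obtain ⟨T, hT, ⟨w1, h1⟩, w2, h2⟩ := exists_exact hC hT0 h0
  by_cases h3 : Bdd B T
  · left
    obtain ⟨w3, h3⟩ := h3
    refine ⟨join w2 w3, fun z hz => ?_⟩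
    obtain ⟨Y, hY, h4⟩ := h2 z ((tLe_join_left _ _).trans hz)
    exact ⟨Y, hY, fun X hX => (h3 z ((tLe_join_right _ _).trans hz) X hX).trans h4⟩
  · right
    obtain ⟨w3, h3⟩ := (gap hB hT h3).2
    refine ⟨join w1 w3, fun z hz => ?_⟩
    obtain ⟨X, hX, h4⟩ := h3 z ((tLe_join_right _ _).trans hz)
    refine ⟨X, hX, fun Y hY => (TLe.jump ?_).trans h4⟩
    exact join_tLe (h1 z ((tLe_join_left _ _).trans hz) Y hY) (hT.ss.self.tLe z)

theorem measurable_fl : Measurable fl := by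
  refine measurable_pi_iff.2 fun m => ?_
  exact measurable_pi_apply
    (Nat.pair m.unpair.1.unpair.1 (Nat.pair m.unpair.1.unpair.2 m.unpair.2))

theorem measurable_fl_dd : Measurable fun z => fl (dd z) := measurable_fl.comp measurable_dd

theorem measurable_cl_fl_dd (n : ℕ) : Measurable fun z => cl (fl (dd z)) n := by
  have h3 := (Pool.Agent.N620.RC.measurable_cl n).comp measurable_fl_dd
  exact h3

theorem measurableSet_tr (h : MeasurableSet B) (n : ℕ) :
    MeasurableSet {z | Tr B (fl (dd z)) n = true} := by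
  have h1 : {z | Tr B (fl (dd z)) n = true} = (fun z => cl (fl (dd z)) n) ⁻¹' B := by
    ext z
    simp [Tr]
  rw [h1]
  exact (measurable_cl_fl_dd n) h

theorem bb_of_measurable (h : MeasurableSet B) : BB B := by
  refine ⟨fun z => Tr B (fl (dd z)), measurable_of_true fun n => measurableSet_tr h n,
    fun _ => false, fun z _ X hX => ?_⟩
  obtain ⟨e, rfl⟩ := exists_wr hX
  rw [← cl_dd, ← cl_tr_fl]
  exact cl_le _ _

theorem BB.hb (h : BB B) : Pool.Agent.N620.RC.HB B := by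
  obtain ⟨F, hF, w, hw⟩ := h
  exact hb_of_bound hF hw

theorem BB.um (h : BB B) : Pool.Agent.N620.RC.UM B := by
  obtain ⟨F, hF, w, hw⟩ := h
  exact um_of_bound hF hw

/-- The jump of `C` is bounded by `B`. -/
def JB (C B : Set (ℕ → Bool)) : Prop :=
  ∃ w, ∀ z, TLe w z → ∃ X, TLe X z ∧ ∀ Y, TLe Y z →
    TLe (jump (join (Tr C Y) z)) (join (Tr B X) z)

theorem not_jb {T : (ℕ → Bool) → ℕ → Bool} (hT : HS T) (hb : Bdd B T) (hU : UU C T)
    (h : JB C B) : False := by
  obtain ⟨w1, h1⟩ := hb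
  obtain ⟨w2, h2⟩ := hU
  obtain ⟨w3, h3⟩ := h
  obtain ⟨Y, hY, h4⟩ := h2 (join w1 (join w2 w3))
    ((tLe_join_left w2 w3).trans (tLe_join_right _ _))
  obtain ⟨X, hX, h5⟩ := h3 (join w1 (join w2 w3))
    ((tLe_join_right w2 w3).trans (tLe_join_right _ _))
  refine not_jump_le _ ((h5 Y hY).trans (join_tLe ?_ (tLe_join_right _ _)))
  exact (h1 _ (tLe_join_left _ _) X hX).trans h4

/-- There are no infinite descending sequences. -/
theorem no_descent {T : (ℕ → Bool) → ℕ → Bool} (hT : HS T) : ∀ D : ℕ → Set (ℕ → Bool),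
    (∀ n, DetB (D n)) → Bdd (D 0) T → (∀ n, JB (D (n + 1)) (D n)) → False := by
  induction hT with
  | id => exact fun D _ h0 h1 => not_jb HS.id h0 (uu_id _) (h1 0)
  | @jump T1 hT1 ih =>
    intro D hD h0 h1
    by_cases h2 : Bdd (D 1) T1
    · exact ih (fun n => D (n + 1)) (fun n => hD _) h2 fun n => h1 _
    · exact not_jb hT1.jump h0 (gap (hD 1) hT1 h2).2 (h1 0)
  | @sum T1 c hT1 hS ih =>
    intro D hD h0 h1
    by_cases h2 : ∃ n, Bdd (D 1) (T1 n)
    · obtain ⟨n, h2⟩ := h2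
      exact ih n (fun n => D (n + 1)) (fun n => hD _) h2 fun n => h1 _
    · push Not at h2
      exact not_jb (HS.sum c hT1 hS) h0
        (gap_lim (hD 1) hT1 hS fun n => (gap (hD 1) (hT1 n) (h2 n)).2) (h1 0)

theorem not_below_jb (h : ∃ w, ∀ z, TLe w z → ∃ Y, TLe Y z ∧ ∀ X, TLe X z →
    TLe (Tr B X) (join (Tr C Y) z)) (h' : JB C B) : False := by
  obtain ⟨w1, h1⟩ := h
  obtain ⟨w2, h2⟩ := h'
  obtain ⟨Y, hY, h3⟩ := h1 (join w1 w2) (tLe_join_left _ _)
  obtain ⟨X, hX, h4⟩ := h2 (join w1 w2) (tLe_join_right _ _)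
  exact not_jump_le _ ((h4 Y hY).trans (join_tLe (h3 X hX) (tLe_join_right _ _)))

/-- The jump of `x` is computable from `y` if and only if `y` computes all sets which are computably
enumerable relative to `x`. -/
theorem jump_le_iff {x y : ℕ → Bool} : TLe (jump x) y ↔ ∀ f : ℕ →. ℕ, TuringReducible f (chi x) →
    ∀ u : ℕ → Bool, (∀ n, u n = true ↔ (f n).Dom) → TLe u y := by
  constructor
  · intro h f hf u hu
    refine TLe.trans ?_ h
    have h1 : CEIn x {n | u n = true} := ⟨f, hf, hu⟩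
    have h2 : SI x fun n : ℕ => u n = true := SI.iff_ceIn.1 h1
    obtain ⟨h3, h4⟩ := h2.decide_jump
    rw [tLe_iff_SI]
    have h5 : SI (jump x) fun a : ℕ × Bool =>
        (u a.1 = true ∧ a.2 = true) ∨ (¬ u a.1 = true ∧ a.2 = false) := by
      refine SI.or (SI.and (h3.comp Primrec.fst) (SI.of_prim ?_))
        (SI.and (h4.comp (f := fun a : ℕ × Bool => a.1) Primrec.fst) (SI.of_prim ?_))
      · exact Primrec.eq.comp Primrec.snd (Primrec.const true)
      · exact Primrec.eq.comp Primrec.snd (Primrec.const false)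
    refine h5.of_eq fun a => ?_
    rcases a with ⟨n, b⟩
    cases b <;> simp
  · intro h
    have h1 : CEIn x {n | jump x n = true} := SI.iff_ceIn.2 (si_jump x)
    obtain ⟨f, hf, h2⟩ := h1
    exact h f hf (jump x) h2

end Pool.Agent.N620.GP
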