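import Pool.Agent.N620.GP.Tb

set_option autoImplicit false

/-! Jumps of uniformly computable families; the successor step. -/

namespace Pool.Agent.N620.GP

open Encodable Pool.Agent.Helper227
open Nat.Partrec (Code)
open Pool.Agent.H685R3 (Halt jump_iff s1_Halt US)
open Pool.Agent.N620.WP (J pre_eq_iff)
open Pool.Agent.N620.RC (cl cl_J Tr)

/-! ### Uniformly c.e. sets -/

theorem us_WE {ψ : (ℕ → Bool) → ℕ → ℕ → Bool}
    (hψ : US fun B (x : ℕ × ℕ × Bool) => ψ B x.1 x.2.1 = x.2.2) :
    US fun B (x : ℕ × ℕ × ℕ) => x.2.2 ∈ WE (ψ B x.1) x.2.1 := by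
  have h1 : US fun B (x : ℕ × ℕ × ℕ) => ∃ σ : List Bool,
      (∀ i < σ.length, ψ B x.1 i = σ.getD i false) ∧
      ((Denumerable.ofNat Code x.2.1).eval (encode (σ, x.2.2))).Dom := by
    refine US.ex (p := fun B (x : ℕ × ℕ × ℕ) (σ : List Bool) =>
      (∀ i < σ.length, ψ B x.1 i = σ.getD i false) ∧
      ((Denumerable.ofNat Code x.2.1).eval (encode (σ, x.2.2))).Dom) (US.and ?_ (US.of_s1 ?_))
    · refine US.all_lt (α := (ℕ × ℕ × ℕ) × List Bool) (p := fun B x i =>
        ψ B x.1.1 i = x.2.getD i false)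
        (f := fun x => x.2.length) ?_ (Primrec.list_length.comp Primrec.snd)
      exact hψ.comp (f := fun z : ((ℕ × ℕ × ℕ) × List Bool) × ℕ =>
        (z.1.1.1, z.2, z.1.2.getD z.2 false))
        ((Primrec.fst.comp (Primrec.fst.comp Primrec.fst)).pair (Primrec.snd.pair
          ((Primrec.list_getD false).comp (Primrec.snd.comp Primrec.fst) Primrec.snd)))
    · exact S1.comp (f := fun x : (ℕ × ℕ × ℕ) × List Bool =>
        (Denumerable.ofNat Code x.1.2.1, encode (x.2, x.1.2.2))) s1_eval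
        (((Primrec.ofNat Code).comp (Primrec.fst.comp (Primrec.snd.comp Primrec.fst))).pair
          (Primrec.encode.comp (Primrec.snd.pair (Primrec.snd.comp (Primrec.snd.comp
            Primrec.fst)))))
  refine h1.of_eq fun B x => ?_
  constructor
  · rintro ⟨σ, h3, h4⟩
    refine ⟨σ.length, ?_⟩
    have : (List.range σ.length).map (ψ B x.1) = σ := by
      refine List.ext_getElem (by simp) fun i h5 h6 => ?_
      simp only [List.getElem_map, List.getElem_range]
      rw [h3 i h6]
      simp [h6]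
    rwa [this]
  · rintro ⟨s, hs⟩
    exact ⟨pre (ψ B x.1) s, fun i hi => (pre_getD _ _ _ _ (by simpa using hi)).symm, hs⟩

theorem exists_jump {ψ : (ℕ → Bool) → ℕ → ℕ → Bool}
    (hψ : US fun B (x : ℕ × ℕ × Bool) => ψ B x.1 x.2.1 = x.2.2) :
    ∃ g : ℕ × ℕ → ℕ, Primrec g ∧ ∀ B e i, jump (ψ B e) i = jump B (g (e, i)) := by
  have h1 : US fun B (x : ℕ × ℕ) => x.2 ∈ WE (ψ B x.1) x.2 :=
    (us_WE hψ).comp (f := fun x : ℕ × ℕ => (x.1, x.2, x.2))
      (Primrec.fst.pair (Primrec.snd.pair Primrec.snd))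
  obtain ⟨g, hg, h⟩ := h1.to_jump
  refine ⟨g, hg, fun B e i => ?_⟩
  have h2 := h B (e, i)
  simp only at h2
  rw [← jump_eq_true] at h2
  cases h3 : jump B (g (e, i))
  · cases h4 : jump (ψ B e) i
    · rfl
    · rw [h2.1 h4] at h3
      cases h3
  · exact h2.2 h3

theorem xor_eq_iff (a b c : Bool) : xor a b = c ↔ a = xor c b := by
  cases a <;> cases b <;> cases c <;> simp

theorem jump_rx {f : ℕ → ℕ × Bool} (hf : Primrec f) :
    ∃ f', Primrec f' ∧ ∀ x, jump (Rx f x) = Rx f' (jump x) := by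
  obtain ⟨g, hg, h⟩ := exists_jump (ψ := fun B _ => Rx f B) (by
    have h1 : US fun B (x : ℕ × ℕ × Bool) => B (f x.2.1).1 = xor x.2.2 (f x.2.1).2 :=
      US.query.comp (f := fun x : ℕ × ℕ × Bool => ((f x.2.1).1, xor x.2.2 (f x.2.1).2))
        ((Primrec.fst.comp (hf.comp (Primrec.fst.comp Primrec.snd))).pair
          (primrec_xor.comp (Primrec.snd.comp Primrec.snd)
            (Primrec.snd.comp (hf.comp (Primrec.fst.comp Primrec.snd)))))
    exact h1.of_eq fun B x => (xor_eq_iff _ _ _).symm)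
  refine ⟨fun m => (g (0, m), false), (hg.comp ((Primrec.const 0).pair Primrec.id)).pair
    (Primrec.const false), fun x => funext fun m => ?_⟩
  rw [h x 0 m]
  simp [Rx]

theorem jump_cl : ∃ g : ℕ × ℕ → ℕ, Primrec g ∧ ∀ x e i, jump (cl x e) i = jump x (g (e, i)) :=
  exists_jump (ψ := fun B e => cl B e)
    (US.query.comp (f := fun x : ℕ × ℕ × Bool => (Nat.pair x.1 x.2.1, x.2.2))
      ((Primrec₂.natPair.comp Primrec.fst (Primrec.fst.comp Primrec.snd)).pair
        (Primrec.snd.comp Primrec.snd)))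

open Classical in
/-- The `e`-th real which is c.e. relative to `z`. -/
noncomputable def WR (z : ℕ → Bool) (e : ℕ) : ℕ → Bool := fun n => decide (n ∈ WE z e)

theorem wr_iff {z : ℕ → Bool} {e n : ℕ} : WR z e n = true ↔ n ∈ WE z e := by simp [WR]

/-- The real whose columns are the sets which are c.e. relative to `z`. -/
noncomputable def dd (z : ℕ → Bool) : ℕ → Bool := J fun e => WR z e

theorem cl_dd (z : ℕ → Bool) (e : ℕ) : cl (dd z) e = WR z e := cl_J _ _

theorem exists_wr {x z : ℕ → Bool} (h : TLe x z) : ∃ e, WR z e = x := by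
  have h1 : SI z fun n : ℕ => x n = true :=
    ((SI.query (B := x)).trans h).comp (f := fun n : ℕ => (n, true))
      (Primrec.id.pair (Primrec.const true))
  have h2 : CEIn z {n | x n = true} := SI.iff_ceIn.2 h1
  obtain ⟨e, he⟩ := ceIn_iff_exists_WE.1 h2
  refine ⟨e, funext fun n => ?_⟩
  have h3 : n ∈ WE z e ↔ x n = true := by
    rw [← he]
    rfl
  rw [← wr_iff] at h3
  cases h4 : WR z e n <;> cases h5 : x n <;> simp_all

theorem cl_le (y : ℕ → Bool) (k : ℕ) : TLe (cl y k) y :=
  tLe_of_computable (f := fun n => Nat.pair k n)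
    (Primrec₂.natPair.comp (Primrec.const k) Primrec.id).to_comp fun _ => rfl

theorem le_dd (z : ℕ → Bool) : TLe z (dd z) := by
  obtain ⟨e, he⟩ := exists_wr (TLe.refl z)
  rw [← cl_dd] at he
  have := cl_le (dd z) e
  rwa [he] at this

theorem exists_dd : ∃ f, Primrec f ∧ ∀ z, dd z = Rx f (jump z) := by
  have h1 : US fun B (m : ℕ) => m.unpair.2 ∈ WE B m.unpair.1 :=
    (us_WE (ψ := fun B _ => B) (US.query.comp (f := fun x : ℕ × ℕ × Bool => (x.2.1, x.2.2))
      ((Primrec.fst.comp Primrec.snd).pair (Primrec.snd.comp Primrec.snd)))).comp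
        (f := fun m : ℕ => (0, m.unpair.1, m.unpair.2))
        ((Primrec.const 0).pair ((Primrec.fst.comp Primrec.unpair).pair
          (Primrec.snd.comp Primrec.unpair)))
  obtain ⟨f, hf, h⟩ := h1.to_jump
  refine ⟨fun m => (f m, false), hf.pair (Primrec.const false), fun z => funext fun m => ?_⟩
  have h2 := h z m
  have h3 : dd z m = true ↔ m.unpair.2 ∈ WE z m.unpair.1 := wr_iff
  rw [h2] at h3
  simp only [Rx, Bool.xor_false]
  cases h4 : dd z m <;> cases h5 : jump z (f m) <;> simp_all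

/-! ### Attaching reals to degrees -/

variable {B : Set (ℕ → Bool)}

/-- The reals which compute `T z` together with a trace of `B`. -/
def AT (B : Set (ℕ → Bool)) (T : (ℕ → Bool) → ℕ → Bool) : Set (ℕ → Bool) :=
  {z | ∃ X, TLe X z ∧ TLe (T z) (join (Tr B X) z)}

/-- On a cone. -/
def UU (B : Set (ℕ → Bool)) (T : (ℕ → Bool) → ℕ → Bool) : Prop := ∃ w, ∀ z, TLe w z → z ∈ AT B T

/-- Cofinally. -/
def Co (B : Set (ℕ → Bool)) (T : (ℕ → Bool) → ℕ → Bool) : Prop := ∀ v, ∃ z, TLe v z ∧ z ∈ AT B T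

/-- The columns of two reals together. -/
def mrg (X Y : ℕ → Bool) : ℕ → Bool := fun n =>
  join X Y (2 * Nat.pair (n.unpair.1 / 2) n.unpair.2 + n.unpair.1 % 2)

theorem mrg_le {X Y z : ℕ → Bool} (hX : TLe X z) (hY : TLe Y z) : TLe (mrg X Y) z := by
  refine TLe.trans ?_ (join_tLe hX hY)
  refine tLe_of_computable
    (f := fun n => 2 * Nat.pair (n.unpair.1 / 2) n.unpair.2 + n.unpair.1 % 2) ?_ fun _ => rfl
  have h1 : Primrec fun n : ℕ => n.unpair.1 := Primrec.fst.comp Primrec.unpair
  have h2 : Primrec fun n : ℕ => n.unpair.2 := Primrec.snd.comp Primrec.unpair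
  exact (Primrec.nat_add.comp (Primrec.nat_mul.comp (Primrec.const 2)
    (Primrec₂.natPair.comp (Primrec.nat_div.comp h1 (Primrec.const 2)) h2))
    (Primrec.nat_mod.comp h1 (Primrec.const 2))).to_comp

theorem tr_mrg (X Y : ℕ → Bool) : Tr B (mrg X Y) = join (Tr B X) (Tr B Y) := by
  funext k
  rcases Nat.even_or_odd' k with ⟨j, rfl | rfl⟩
  · rw [join_even]
    have h1 : cl (mrg X Y) (2 * j) = cl X j := by
      funext n
      simp only [cl, mrg, Nat.unpair_pair]
      have h2 : 2 * j / 2 = j := by omega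
      have h3 : 2 * j % 2 = 0 := by omega
      rw [h2, h3, Nat.add_zero, join_even]
    simp only [Tr]
    exact decide_eq_decide.2 (by rw [h1])
  · rw [join_odd]
    have h1 : cl (mrg X Y) (2 * j + 1) = cl Y j := by
      funext n
      simp only [cl, mrg, Nat.unpair_pair]
      have h2 : (2 * j + 1) / 2 = j := by omega
      have h3 : (2 * j + 1) % 2 = 1 := by omega
      rw [h2, h3, join_odd]
    simp only [Tr]
    exact decide_eq_decide.2 (by rw [h1])

theorem measurable_join {F G : (ℕ → Bool) → ℕ → Bool} (hF : Measurable F) (hG : Measurable G) :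
    Measurable fun z => join (F z) (G z) := by
  refine measurable_pi_iff.2 fun n => ?_
  unfold join
  by_cases h : n % 2 = 0
  · simp only [h, if_true]
    exact (measurable_pi_apply _).comp hF
  · simp only [h, if_false]
    exact (measurable_pi_apply _).comp hG

/-- The successor step. -/
theorem co_jump {S F : (ℕ → Bool) → ℕ → Bool}
    (hB : ∀ w, ∃ z, TLe w z ∧ ∃ X, TLe X z ∧ ¬ TLe (Tr B X) (join (F z) z))
    (hT : ∀ z, Tab (F z) z S) (hU : UU B F) : Co B fun z => jump (S z) := by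
  intro v
  obtain ⟨w, hw⟩ := hU
  obtain ⟨z, hz, X0, hX0, hr⟩ := hB (join v w)
  obtain ⟨h, hh1, hh2⟩ := posner_robinson hr
  obtain ⟨X1, hX1, hF1⟩ := hw z ((tLe_join_right v w).trans hz)
  have hφ := hT z
  have hφh : TLe (F z) h := (tLe_join_left _ _).trans hh1
  let k : ℕ → ℕ := fun n => (h n).toNat
  let g := ug (F z) k
  have hQ : ∀ {A : ℕ → Bool}, TLe (F z) A →
      SI A fun x : List ℕ × ℕ × Bool => F z x.2.1 = x.2.2 := fun hA =>
    ((SI.query (B := F z)).trans hA).comp (f := fun x : List ℕ × ℕ × Bool => (x.2.1, x.2.2))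
      ((Primrec.fst.comp Primrec.snd).pair (Primrec.snd.comp Primrec.snd))
  have hSu : TLe (S (join z g)) h := by
    rw [tLe_iff_SI]
    have h1 := si_at (A := h) (k := k) hφ.1 (K := fun _ i m => m = (h i).toNat)
      (Q := fun _ x b => F z x = b) (fun i m => Iff.rfl) (fun r σ c b => Iff.rfl) (by
        have h2 : SI h fun x : List Bool × ℕ × ℕ =>
            (h x.2.1 = true ∧ x.2.2 = 1) ∨ (h x.2.1 = false ∧ x.2.2 = 0) := by
          refine SI.or (SI.and ?_ (SI.of_prim ?_)) (SI.and ?_ (SI.of_prim ?_))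
          · exact SI.query.comp (f := fun x : List Bool × ℕ × ℕ => (x.2.1, true))
              ((Primrec.fst.comp Primrec.snd).pair (Primrec.const true))
          · exact Primrec.eq.comp (Primrec.snd.comp Primrec.snd) (Primrec.const 1)
          · exact SI.query.comp (f := fun x : List Bool × ℕ × ℕ => (x.2.1, false))
              ((Primrec.fst.comp Primrec.snd).pair (Primrec.const false))
          · exact Primrec.eq.comp (Primrec.snd.comp Primrec.snd) (Primrec.const 0)
        refine h2.of_eq fun x => ?_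
        cases h x.2.1 <;> simp) (hQ hφh)
    refine (h1.comp (f := fun x : ℕ × Bool => (2 * x.1, x.2))
      ((Primrec.nat_mul.comp (Primrec.const 2) Primrec.fst).pair Primrec.snd)).of_eq fun x => ?_
    exact (tab_iff hφ.1 hφ x.1 x.2).symm
  have hhg : TLe h (join (F z) g) := by
    rw [tLe_iff_SI]
    have h1 := si_k (A := join (F z) g) (k := k) hφ.1 (K := fun σ _ m => Rd g σ m)
      (Q := fun _ x b => F z x = b) (fun i m => rd_ug hφ.1 i m) (fun r σ c b => Iff.rfl)
      ((si_Rd (tLe_join_right _ _)).comp (f := fun x : List Bool × ℕ × ℕ => (x.1, x.2.2))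
        (Primrec.fst.pair (Primrec.snd.comp Primrec.snd))) (hQ (tLe_join_left _ _))
    have ht : Primrec fun b : Bool => b.toNat := Primrec.dom_bool _
    refine (h1.comp (f := fun x : ℕ × Bool => (x.1, x.2.toNat))
      (Primrec.fst.pair (ht.comp Primrec.snd))).of_eq fun x => ?_
    simp only [k]
    cases x.2 <;> cases h x.1 <;> simp
  refine ⟨join z g, ((tLe_join_left v w).trans hz).trans (tLe_join_left _ _), mrg X0 X1,
    mrg_le (hX0.trans (tLe_join_left _ _)) (hX1.trans (tLe_join_left _ _)), ?_⟩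
  rw [tr_mrg]
  refine (hSu.jump.trans hh2).trans (join_tLe ?_ ?_)
  · refine hhg.trans (join_tLe (hF1.trans (join_tLe ?_ ?_)) ?_)
    · exact (tLe_join_right _ _).trans (tLe_join_left _ _)
    · exact (tLe_join_left _ _).trans (tLe_join_right _ _)
    · exact (tLe_join_right _ _).trans (tLe_join_right _ _)
  · exact (tLe_join_left _ _).trans (tLe_join_left _ _)

end Pool.Agent.N620.GP
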