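import Pool.Agent.N620.GP.Js

set_option autoImplicit false

/-! The limit step. -/

namespace Pool.Agent.N620.GP

open Encodable Pool.Agent.Helper227
open Nat.Partrec (Code)
open Pool.Agent.H685R3 (Halt jump_iff s1_Halt US)
open Pool.Agent.N620.WP (J pre_eq_iff join_cone)
open Pool.Agent.N620.RC (cl cl_J Tr)

theorem si_WE' {A : ℕ → Bool} {ψ : ℕ → ℕ → Bool}
    (hψ : SI A fun x : ℕ × ℕ × Bool => ψ x.1 x.2.1 = x.2.2) :
    SI A fun x : ℕ × ℕ × ℕ => x.2.2 ∈ WE (ψ x.1) x.2.1 := by
  have h1 : SI A fun x : ℕ × ℕ × ℕ => ∃ σ : List Bool,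
      (∀ i < σ.length, ψ x.1 i = σ.getD i false) ∧
      ((Denumerable.ofNat Code x.2.1).eval (encode (σ, x.2.2))).Dom := by
    refine SI.ex (p := fun (x : ℕ × ℕ × ℕ) (σ : List Bool) =>
      (∀ i < σ.length, ψ x.1 i = σ.getD i false) ∧
      ((Denumerable.ofNat Code x.2.1).eval (encode (σ, x.2.2))).Dom) (SI.and ?_ (SI.of_s1 ?_))
    · refine SI.all_lt (α := (ℕ × ℕ × ℕ) × List Bool) (p := fun x i =>
        ψ x.1.1 i = x.2.getD i false)
        (f := fun x => x.2.length) ?_ (Primrec.list_length.comp Primrec.snd)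
      exact hψ.comp (f := fun z : ((ℕ × ℕ × ℕ) × List Bool) × ℕ =>
        (z.1.1.1, z.2, z.1.2.getD z.2 false))
        ((Primrec.fst.comp (Primrec.fst.comp Primrec.fst)).pair (Primrec.snd.pair
          ((Primrec.list_getD false).comp (Primrec.snd.comp Primrec.fst) Primrec.snd)))
    · exact S1.comp (f := fun x : (ℕ × ℕ × ℕ) × List Bool =>
        (Denumerable.ofNat Code x.1.2.1, encode (x.2, x.1.2.2))) s1_eval
        (((Primrec.ofNat Code).comp (Primrec.fst.comp (Primrec.snd.comp Primrec.fst))).pair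
          (Primrec.encode.comp (Primrec.snd.pair (Primrec.snd.comp (Primrec.snd.comp
            Primrec.fst)))))
  refine h1.of_eq fun x => ?_
  constructor
  · rintro ⟨σ, h3, h4⟩
    refine ⟨σ.length, ?_⟩
    have : (List.range σ.length).map (ψ x.1) = σ := by
      refine List.ext_getElem (by simp) fun i h5 h6 => ?_
      simp only [List.getElem_map, List.getElem_range]
      rw [h3 i h6]
      simp [h6]
    rwa [this]
  · rintro ⟨s, hs⟩
    exact ⟨pre (ψ x.1) s, fun i hi => (pre_getD _ _ _ _ (by simpa using hi)).symm, hs⟩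

theorem exists_index {x y : ℕ → Bool} (h : TLe x y) :
    ∃ i, ∀ n b, x n = b ↔ encode ((n, b) : ℕ × Bool) ∈ WE y i := by
  have h1 : SI y fun a : ℕ × Bool => x a.1 = a.2 := (SI.query (B := x)).trans h
  have h2 : SI y fun m : ℕ => ∃ a : ℕ × Bool, encode a = m ∧ x a.1 = a.2 := by
    refine SI.ex (p := fun (m : ℕ) (a : ℕ × Bool) => encode a = m ∧ x a.1 = a.2)
      (SI.and (SI.of_prim ?_) ?_)
    · exact Primrec.eq.comp (Primrec.encode.comp Primrec.snd) Primrec.fst
    · exact h1.comp Primrec.snd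
  have h3 : CEIn y {m | ∃ a : ℕ × Bool, encode a = m ∧ x a.1 = a.2} := SI.iff_ceIn.2 h2
  obtain ⟨i, hi⟩ := ceIn_iff_exists_WE.1 h3
  refine ⟨i, fun n b => ?_⟩
  rw [← hi]
  constructor
  · intro h4
    exact ⟨(n, b), rfl, h4⟩
  · rintro ⟨a, h4, h5⟩
    rw [encode_inj.1 h4] at h5
    exact h5

variable {B : Set (ℕ → Bool)}

/-- The real whose columns are the columns of the columns of `d`. -/
def fl (d : ℕ → Bool) : ℕ → Bool := fun m =>
  d (Nat.pair m.unpair.1.unpair.1 (Nat.pair m.unpair.1.unpair.2 m.unpair.2))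

theorem fl_le (d : ℕ → Bool) : TLe (fl d) d := by
  refine tLe_of_computable (f := fun m =>
    Nat.pair m.unpair.1.unpair.1 (Nat.pair m.unpair.1.unpair.2 m.unpair.2)) ?_ fun _ => rfl
  have h1 : Primrec fun m : ℕ => m.unpair.1 := Primrec.fst.comp Primrec.unpair
  have h2 : Primrec fun m : ℕ => m.unpair.2 := Primrec.snd.comp Primrec.unpair
  exact (Primrec₂.natPair.comp (h1.comp h1) (Primrec₂.natPair.comp (h2.comp h1) h2)).to_comp

theorem cl_fl (d : ℕ → Bool) (e k : ℕ) : cl (fl d) (Nat.pair e k) = cl (cl d e) k := by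
  funext n
  simp [cl, fl]

theorem cl_tr_fl (d : ℕ → Bool) (e : ℕ) : cl (Tr B (fl d)) e = Tr B (cl d e) := by
  funext k
  simp only [cl, Tr]
  refine decide_eq_decide.2 ?_
  rw [← cl_fl d e k]

theorem unpair_left_le' (n : ℕ) : n.unpair.1 ≤ n := Nat.unpair_left_le n

/-- The limit step. -/
theorem co_join {S F : ℕ → (ℕ → Bool) → ℕ → Bool} (hT : ∀ n z, Tab (F n z) z (S n))
    (hU : ∀ n, UU B fun z => F n (dd z)) : Co B fun z => J fun n => S n z := by
  intro v
  choose w hw using hU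
  obtain ⟨c, hc⟩ := join_cone w
  let z := join v c
  have h1 : ∀ n, ∃ e i, ∀ m b, F n (dd z) m = b ↔
      encode ((m, b) : ℕ × Bool) ∈ WE (join (Tr B (cl (dd z) e)) z) i := by
    intro n
    obtain ⟨X, hX, h2⟩ := hw n z ((hc n).trans (tLe_join_right _ _))
    obtain ⟨e, he⟩ := exists_wr hX
    rw [← cl_dd] at he
    obtain ⟨i, hi⟩ := exists_index h2
    refine ⟨e, i, ?_⟩
    rw [he]
    exact hi
  choose e i hei using h1
  let Φ : ℕ → ℕ → Bool := fun n => F n (dd z)
  let φ := Rx (tr hj) (J Φ)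
  have hφ : Tab φ (dd z) fun x => J fun n => S n x := Tab.jn fun n => hT n (dd z)
  let k : ℕ → ℕ := fun n => Nat.pair (e n) (i n)
  let g := ug φ k
  let u := join (dd z) g
  let β := Tr B (fl (dd z))
  let A := join β u
  have hβ : TLe β A := tLe_join_left _ _
  have hg : TLe g A := (tLe_join_right _ _).trans (tLe_join_right _ _)
  have hd : TLe (dd z) A := (tLe_join_left _ _).trans (tLe_join_right _ _)
  have hz : TLe z A := (le_dd z).trans hd
  let ψ : ℕ → ℕ → Bool := fun e => join (cl β e) z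
  have hψ : SI A fun x : ℕ × ℕ × Bool => ψ x.1 x.2.1 = x.2.2 := by
    have h2 : SI A fun x : ℕ × ℕ × Bool =>
        (x.2.1 % 2 = 0 ∧ β (Nat.pair x.1 (x.2.1 / 2)) = x.2.2) ∨
        (¬ x.2.1 % 2 = 0 ∧ z (x.2.1 / 2) = x.2.2) := by
      have hm : PrimrecPred fun x : ℕ × ℕ × Bool => x.2.1 % 2 = 0 :=
        Primrec.eq.comp (Primrec.nat_mod.comp (Primrec.fst.comp Primrec.snd) (Primrec.const 2))
          (Primrec.const 0)
      have hh : Primrec fun x : ℕ × ℕ × Bool => x.2.1 / 2 :=
        Primrec.nat_div.comp (Primrec.fst.comp Primrec.snd) (Primrec.const 2)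
      refine SI.or (SI.and (SI.of_prim hm) ?_) (SI.and (SI.of_prim hm.not) ?_)
      · exact ((SI.query (B := β)).trans hβ).comp
          (f := fun x : ℕ × ℕ × Bool => (Nat.pair x.1 (x.2.1 / 2), x.2.2))
          ((Primrec₂.natPair.comp Primrec.fst hh).pair (Primrec.snd.comp Primrec.snd))
      · exact ((SI.query (B := z)).trans hz).comp
          (f := fun x : ℕ × ℕ × Bool => (x.2.1 / 2, x.2.2))
          (hh.pair (Primrec.snd.comp Primrec.snd))
    refine h2.of_eq fun x => ?_
    simp only [ψ, join, cl]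
    by_cases h3 : x.2.1 % 2 = 0
    · simp [h3]
    · simp [h3]
  let Q : List ℕ → ℕ → Bool → Prop := fun L x b => ∃ y : List Bool × ℕ × Bool, encode y = x ∧
    encode ((encode (y.1, ji y.2.1, y.2.2), b) : ℕ × Bool) ∈
      WE (ψ (L.getD (jm y.2.1) 0).unpair.1) (L.getD (jm y.2.1) 0).unpair.2
  have hQ : ∀ (r : ℕ) (σ : List Bool) (c b : Bool),
      Q ((List.range (r + 1)).map k) (encode (σ, r, c)) b ↔ φ (encode (σ, r, c)) = b := by
    intro r σ c b
    have h2 : φ (encode (σ, r, c)) = F (jm r) (dd z) (encode (σ, ji r, c)) := by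
      simp only [φ, Rx, tr, encodek, Option.map_some, Option.getD_some, hj, Bool.xor_false, J,
        Nat.unpair_pair, Φ]
    have h3 : jm r < r + 1 := by
      have h4 : (r / 2).unpair.1 ≤ r / 2 := Nat.unpair_left_le _
      unfold jm
      omega
    have h4 : ((List.range (r + 1)).map k).getD (jm r) 0 = Nat.pair (e (jm r)) (i (jm r)) := by
      simp [List.getD, h3, k]
    have h5 : ∀ e, ψ e = join (Tr B (cl (dd z) e)) z := by
      intro e
      simp only [ψ, β]
      rw [cl_tr_fl]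
    rw [h2, hei]
    constructor
    · rintro ⟨y, h6, h7⟩
      rw [encode_inj.1 h6] at h7
      simp only [h4, Nat.unpair_pair, h5] at h7
      exact h7
    · intro h7
      refine ⟨(σ, r, c), rfl, ?_⟩
      simp only [h4, Nat.unpair_pair, h5]
      exact h7
  have hQ' : SI A fun x : List ℕ × ℕ × Bool => Q x.1 x.2.1 x.2.2 := by
    refine SI.ex (p := fun (x : List ℕ × ℕ × Bool) (y : List Bool × ℕ × Bool) =>
      encode y = x.2.1 ∧ encode ((encode (y.1, ji y.2.1, y.2.2), x.2.2) : ℕ × Bool) ∈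
      WE (ψ (x.1.getD (jm y.2.1) 0).unpair.1) (x.1.getD (jm y.2.1) 0).unpair.2)
      (SI.and (SI.of_prim ?_) ?_)
    · exact Primrec.eq.comp (Primrec.encode.comp Primrec.snd)
        (Primrec.fst.comp (Primrec.snd.comp Primrec.fst))
    · have hr2 : Primrec fun r : ℕ => (r / 2).unpair :=
        Primrec.unpair.comp (Primrec.nat_div.comp Primrec.id (Primrec.const 2))
      have hjm : Primrec jm := Primrec.fst.comp hr2
      have hji : Primrec ji := by
        refine Primrec.ite ?_ ?_ (Primrec.snd.comp hr2)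
        · exact Primrec.eq.comp (Primrec.nat_mod.comp Primrec.id (Primrec.const 2))
            (Primrec.const 0)
        · exact Primrec.nat_mul.comp (Primrec.const 2) (Primrec.snd.comp hr2)
      have hy : Primrec fun x : (List ℕ × ℕ × Bool) × List Bool × ℕ × Bool => x.2.2.1 :=
        Primrec.fst.comp (Primrec.snd.comp Primrec.snd)
      have hL : Primrec fun x : (List ℕ × ℕ × Bool) × List Bool × ℕ × Bool =>
          (x.1.1.getD (jm x.2.2.1) 0).unpair :=
        Primrec.unpair.comp ((Primrec.list_getD 0).comp (Primrec.fst.comp Primrec.fst)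
          (hjm.comp hy))
      exact (si_WE' hψ).comp (f := fun x : (List ℕ × ℕ × Bool) × List Bool × ℕ × Bool =>
        ((x.1.1.getD (jm x.2.2.1) 0).unpair.1, (x.1.1.getD (jm x.2.2.1) 0).unpair.2,
          encode ((encode (x.2.1, ji x.2.2.1, x.2.2.2), x.1.2.2) : ℕ × Bool)))
        ((Primrec.fst.comp hL).pair ((Primrec.snd.comp hL).pair (Primrec.encode.comp
          ((Primrec.encode.comp ((Primrec.fst.comp Primrec.snd).pair ((hji.comp hy).pair
            (Primrec.snd.comp (Primrec.snd.comp Primrec.snd))))).pair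
              (Primrec.snd.comp (Primrec.snd.comp Primrec.fst))))))
  have hSu : TLe (J fun n => S n u) A := by
    rw [tLe_iff_SI]
    have h1 := si_at (A := A) (k := k) hφ.1 (K := fun σ _ m => Rd g σ m) (Q := Q)
      (fun i m => rd_ug hφ.1 i m) hQ
      ((si_Rd hg).comp (f := fun x : List Bool × ℕ × ℕ => (x.1, x.2.2))
        (Primrec.fst.pair (Primrec.snd.comp Primrec.snd))) hQ'
    refine (h1.comp (f := fun x : ℕ × Bool => (2 * x.1, x.2))
      ((Primrec.nat_mul.comp (Primrec.const 2) Primrec.fst).pair Primrec.snd)).of_eq fun x => ?_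
    exact (tab_iff hφ.1 hφ x.1 x.2).symm
  refine ⟨u, ((tLe_join_left v c).trans (le_dd z)).trans (tLe_join_left _ _), fl (dd z),
    (fl_le _).trans (tLe_join_left _ _), hSu⟩

end Pool.Agent.N620.GP
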