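import Pool.Agent.H685R3.Inv2
import Pool.Agent.N620.WP.Cod

set_option autoImplicit false

/-! The theorem of Posner and Robinson, relativized. -/

namespace Pool.Agent.N620.GP

open Encodable Pool.Agent.Helper227
open Pool.Agent.H685R3 (Halt jump_iff Forces us_Forces G us_G G_forces G_unique G_exists)

/-- The join of `r` and its complement. -/
def rc (r : ℕ → Bool) : ℕ → Bool := fun n => if n % 2 = 0 then r (n / 2) else !(r (n / 2))

theorem rc_le (r : ℕ → Bool) : TLe (rc r) r := by
  rw [tLe_iff_SI]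
  have hm : PrimrecPred fun q : ℕ × Bool => q.1 % 2 = 0 :=
    Primrec.eq.comp (Primrec.nat_mod.comp Primrec.fst (Primrec.const 2)) (Primrec.const 0)
  have h1 := (SI.query (B := r)).comp (f := fun q : ℕ × Bool => (q.1 / 2, q.2))
    ((Primrec.nat_div.comp Primrec.fst (Primrec.const 2)).pair Primrec.snd)
  have h2 := (SI.query (B := r)).comp (f := fun q : ℕ × Bool => (q.1 / 2, !q.2))
    ((Primrec.nat_div.comp Primrec.fst (Primrec.const 2)).pair (Primrec.not.comp Primrec.snd))
  refine (SI.or (SI.and (SI.of_prim hm) h1) (SI.and (SI.of_prim hm.not) h2)).of_eq fun q => ?_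
  simp only [rc]
  by_cases h0 : q.1 % 2 = 0
  · simp [h0]
  · simp only [h0, false_and, not_false_eq_true, true_and, false_or, if_false]
    cases r (q.1 / 2) <;> cases q.2 <;> simp

theorem le_of_ce {y r : ℕ → Bool} (h : SI y fun k => rc r k = true) : TLe r y := by
  rw [tLe_iff_SI]
  have h1 := h.comp (f := fun q : ℕ × Bool => 2 * q.1)
    (Primrec.nat_mul.comp (Primrec.const 2) Primrec.fst)
  have h2 := h.comp (f := fun q : ℕ × Bool => 2 * q.1 + 1)
    (Primrec.succ.comp (Primrec.nat_mul.comp (Primrec.const 2) Primrec.fst))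
  refine (SI.or (SI.and (SI.of_prim (Primrec.eq.comp Primrec.snd (Primrec.const true))) h1)
    (SI.and (SI.of_prim (Primrec.eq.comp Primrec.snd (Primrec.const false))) h2)).of_eq fun q => ?_
  have e1 : rc r (2 * q.1) = r q.1 := by simp [rc]
  have e2 : rc r (2 * q.1 + 1) = !(r q.1) := by
    simp only [rc]
    rw [if_neg (by omega), show (2 * q.1 + 1) / 2 = q.1 by omega]
  rw [e1, e2]
  rcases q with ⟨n, b⟩
  cases b <;> simp

/-- `σ`, followed by `k` zeros and a one. -/
def ex (σ : List Bool) (k : ℕ) : List Bool := σ ++ ((List.range k).map (fun _ => false) ++ [true])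

theorem primrec_ex : Primrec₂ ex := by
  unfold ex
  refine Primrec.list_append.comp Primrec.fst (Primrec.list_append.comp ?_ (Primrec.const [true]))
  exact Primrec.list_map (Primrec.list_range.comp Primrec.snd) (Primrec.const false).to₂

theorem length_ex (σ : List Bool) (k : ℕ) : (ex σ k).length = σ.length + k + 1 := by
  simp [ex]
  omega

theorem ex_getD_lt {σ : List Bool} {k j : ℕ} (h : j < k) : (ex σ k).getD (σ.length + j) false = false := by
  unfold ex
  rw [List.getD_append_right _ _ _ _ (by omega), List.getD_append _ _ _ _ (by simp; omega)]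
  simp [List.getD, show σ.length + j - σ.length = j by omega, h]

theorem ex_getD_eq {σ : List Bool} {k : ℕ} : (ex σ k).getD (σ.length + k) false = true := by
  unfold ex
  rw [List.getD_append_right _ _ _ _ (by omega), List.getD_append_right _ _ _ _ (by simp)]
  simp

/-- Some extension of `ex σ k` forces the `e`-th jump statement. -/
def Cf (y : ℕ → Bool) (e : ℕ) (σ : List Bool) (k : ℕ) : Prop := ∃ τ, Forces y (e, ex σ k) τ

theorem si_Cf (y : ℕ → Bool) (e : ℕ) (σ : List Bool) : SI y fun k => Cf y e σ k := by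
  refine SI.ex (p := fun k τ => Forces y (e, ex σ k) τ) ?_
  exact (us_Forces.toSI y).comp (f := fun x : ℕ × List Bool => ((e, ex σ x.1), x.2))
    (((Primrec.const e).pair (primrec_ex.comp (Primrec.const σ) Primrec.fst)).pair Primrec.snd)

variable {y r : ℕ → Bool}

theorem exists_k (h : ¬ TLe r y) (e : ℕ) (σ : List Bool) : ∃ k, ¬ (rc r k = true ↔ Cf y e σ k) := by
  by_contra hcon
  push Not at hcon
  exact h (le_of_ce ((si_Cf y e σ).of_eq fun k => (hcon k).symm))

variable (y r)

open Classical in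
/-- The number coded at stage `e`. -/
noncomputable def kk (e : ℕ) (σ : List Bool) : ℕ :=
  if h : ∃ k, ¬ (rc r k = true ↔ Cf y e σ k) then Nat.find h else 0

open Classical in
/-- The next string. -/
noncomputable def nx (e : ℕ) (σ : List Bool) : List Bool :=
  if h : ∃ τ, G y (e, ex σ (kk y r e σ)) τ then h.choose else ex σ (kk y r e σ)

/-- The strings. -/
noncomputable def V : ℕ → List Bool
  | 0 => []
  | e + 1 => nx y r e (V e)

/-- The number coded at stage `e`. -/
noncomputable def ke (e : ℕ) : ℕ := kk y r e (V y r e)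

/-- The limit. -/
noncomputable def lm (i : ℕ) : Bool := (V y r (i + 1)).getD i false

variable {y r}

theorem ke_spec (h : ¬ TLe r y) (e : ℕ) : ¬ (rc r (ke y r e) = true ↔ Cf y e (V y r e) (ke y r e)) := by
  classical
  unfold ke kk
  rw [dif_pos (exists_k h e _)]
  exact Nat.find_spec (exists_k h e (V y r e))

theorem V_succ_of_cf {e : ℕ} (h : Cf y e (V y r e) (ke y r e)) :
    G y (e, ex (V y r e) (ke y r e)) (V y r (e + 1)) := by
  have h1 : ∃ τ, G y (e, ex (V y r e) (kk y r e (V y r e))) τ := G_exists h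
  show G y _ (nx y r e (V y r e))
  unfold nx
  rw [dif_pos h1]
  exact h1.choose_spec

theorem V_succ_of_not {e : ℕ} (h : ¬ Cf y e (V y r e) (ke y r e)) :
    V y r (e + 1) = ex (V y r e) (ke y r e) := by
  have h1 : ¬ ∃ τ, G y (e, ex (V y r e) (kk y r e (V y r e))) τ := fun ⟨τ, hτ⟩ =>
    h ⟨τ, G_forces hτ⟩
  show nx y r e (V y r e) = _
  unfold nx
  rw [dif_neg h1]
  rfl

theorem ex_prefix (e : ℕ) : ex (V y r e) (ke y r e) <+: V y r (e + 1) := by
  by_cases h : Cf y e (V y r e) (ke y r e)
  · have h1 := (G_forces (V_succ_of_cf h)).1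
    simp only at h1
    rw [List.prefix_iff_eq_take, h1]
  · rw [V_succ_of_not h]

theorem prefix_succ (e : ℕ) : V y r e <+: V y r (e + 1) :=
  (List.prefix_append _ _).trans (ex_prefix e)

theorem prefix_le {e e' : ℕ} (h : e ≤ e') : V y r e <+: V y r e' := by
  induction h with
  | refl => exact List.prefix_rfl
  | step _ ih => exact ih.trans (prefix_succ _)

theorem length_V (e : ℕ) : e ≤ (V y r e).length := by
  induction e with
  | zero => simp
  | succ e ih =>
    have := (ex_prefix (y := y) (r := r) e).length_le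
    rw [length_ex] at this
    omega

theorem lm_eq {σ : List Bool} {e i : ℕ} (hσ : σ <+: V y r e) (hi : i < σ.length) :
    lm y r i = σ.getD i false := by
  have hi' : i < (V y r e).length := lt_of_lt_of_le hi hσ.length_le
  have h1 : i < (V y r (i + 1)).length := length_V (i + 1)
  have h2 : (V y r e).getD i false = σ.getD i false := Pool.Agent.H685R3.getD_of_prefix hσ hi
  rw [← h2]
  rcases le_total e (i + 1) with h | h
  · exact Pool.Agent.H685R3.getD_of_prefix (prefix_le h) hi'
  · exact (Pool.Agent.H685R3.getD_of_prefix (prefix_le h) h1).symm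

theorem pre_lm {σ : List Bool} {e : ℕ} (hσ : σ <+: V y r e) : pre (lm y r) σ.length = σ := by
  refine List.ext_getElem (by simp) fun i h1 h2 => ?_
  rw [getElem_pre, lm_eq hσ h2]
  simp [h2]

/-- After `σ`, the real `g` continues with `k` zeros and a one. -/
def Rd (g : ℕ → Bool) (σ : List Bool) (k : ℕ) : Prop :=
  (∀ j < k, g (σ.length + j) = false) ∧ g (σ.length + k) = true

theorem rd_iff (e k : ℕ) : Rd (lm y r) (V y r e) k ↔ k = ke y r e := by
  have h1 : ∀ j < ke y r e, lm y r ((V y r e).length + j) = false := by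
    intro j hj
    rw [lm_eq (ex_prefix e) (by rw [length_ex]; omega)]
    exact ex_getD_lt hj
  have h2 : lm y r ((V y r e).length + ke y r e) = true := by
    rw [lm_eq (ex_prefix e) (by rw [length_ex]; omega)]
    exact ex_getD_eq
  constructor
  · rintro ⟨h3, h4⟩
    rcases lt_trichotomy k (ke y r e) with h | h | h
    · rw [h1 k h] at h4
      cases h4
    · exact h
    · rw [h3 _ h] at h2
      cases h2
  · rintro rfl
    exact ⟨h1, h2⟩

theorem jump_lm (e : ℕ) : jump (join y (lm y r)) e = true ↔ Cf y e (V y r e) (ke y r e) := by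
  rw [jump_iff]
  constructor
  · rintro ⟨k, hk⟩
    refine ⟨pre (lm y r) (max (ex (V y r e) (ke y r e)).length k), ?_,
      pre (join y (lm y r)) k, ⟨?_, hk⟩, ?_⟩
    · simp only
      conv_rhs => rw [← pre_lm (ex_prefix (y := y) (r := r) e)]
      refine List.ext_getElem (by simp) fun i h2 h3 => ?_
      rw [List.getElem_take, getElem_pre, getElem_pre]
    · simp only [length_pre]
      omega
    · intro i hi
      rw [length_pre] at hi
      rw [pre_getD _ _ _ _ hi]
      by_cases h2 : i % 2 = 0
      · refine Or.inl ⟨h2, ?_⟩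
        simp [join, h2]
      · refine Or.inr ⟨h2, ?_⟩
        rw [pre_getD _ _ _ _ (by omega)]
        simp [join, h2]
  · intro h
    obtain ⟨-, ρ, ⟨h1, h2⟩, h3⟩ := G_forces (V_succ_of_cf h)
    refine ⟨ρ.length, ?_⟩
    have h4 : pre (join y (lm y r)) ρ.length = ρ := by
      refine List.ext_getElem (by simp) fun i h5 h6 => ?_
      rw [getElem_pre]
      have h7 : ρ.getD i false = ρ[i] := by simp [h6]
      rcases h3 i h6 with ⟨h8, h9⟩ | ⟨h8, h9⟩
      · simp only [join, h8, if_true]
        rw [h9, h7]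
      · simp only [join, h8, if_false]
        rw [lm_eq (List.prefix_rfl (l := V y r (e + 1))) (by omega), h9, h7]
    rw [h4]
    exact h2

theorem jump_lm' (h : ¬ TLe r y) (e : ℕ) (b : Bool) :
    jump (join y (lm y r)) e = b ↔ rc r (ke y r e) = !b := by
  have h1 := ke_spec h e
  have h2 := jump_lm (y := y) (r := r) e
  rw [← h2] at h1
  revert h1
  cases jump (join y (lm y r)) e <;> cases rc r (ke y r e) <;> cases b <;> simp

/-- The step from `σ` to `σ'`, read from `g`. -/
def Stp (y r g : ℕ → Bool) (i : ℕ) (σ σ' : List Bool) : Prop :=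
  ∃ k, Rd g σ k ∧ ((rc r k = true ∧ σ' = ex σ k) ∨ (rc r k = false ∧ G y (i, ex σ k) σ'))

theorem stp_iff (h : ¬ TLe r y) (i : ℕ) (σ' : List Bool) :
    Stp y r (lm y r) i (V y r i) σ' ↔ σ' = V y r (i + 1) := by
  have h1 := ke_spec h i
  constructor
  · rintro ⟨k, h2, h3⟩
    rw [rd_iff] at h2
    subst h2
    rcases h3 with ⟨h4, h5⟩ | ⟨h4, h5⟩
    · have h6 : ¬ Cf y i (V y r i) (ke y r i) := fun h7 => h1 ⟨fun _ => h7, fun _ => h4⟩
      rw [V_succ_of_not h6, h5]
    · have h6 : Cf y i (V y r i) (ke y r i) := ⟨_, G_forces h5⟩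
      exact G_unique h5 (V_succ_of_cf h6)
  · rintro rfl
    refine ⟨ke y r i, (rd_iff i _).2 rfl, ?_⟩
    by_cases h4 : rc r (ke y r i) = true
    · have h6 : ¬ Cf y i (V y r i) (ke y r i) := fun h7 => h1 ⟨fun _ => h7, fun _ => h4⟩
      exact Or.inl ⟨h4, V_succ_of_not h6⟩
    · have h6 : Cf y i (V y r i) (ke y r i) := by
        by_contra h7
        exact h1 ⟨fun h8 => absurd h8 h4, fun h8 => absurd h8 h7⟩
      exact Or.inr ⟨by simpa using h4, V_succ_of_cf h6⟩

/-- The strings `L` are obtained by the first `e` steps. -/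
def Run (y r g : ℕ → Bool) (e : ℕ) (L : List (List Bool)) : Prop :=
  L.getD 0 [] = [] ∧ ∀ i < e, Stp y r g i (L.getD i []) (L.getD (i + 1) [])

theorem run_eq (h : ¬ TLe r y) {e : ℕ} {L : List (List Bool)} (hL : Run y r (lm y r) e L) :
    ∀ i ≤ e, L.getD i [] = V y r i := by
  intro i
  induction i with
  | zero => intro _; rw [hL.1]; rfl
  | succ i ih =>
    intro hi
    have h1 := hL.2 i (by omega)
    rw [ih (by omega), stp_iff h] at h1
    exact h1

theorem exists_run (h : ¬ TLe r y) (e : ℕ) : ∃ L, Run y r (lm y r) e L := by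
  have hL : ∀ i ≤ e, ((List.range (e + 1)).map (V y r)).getD i [] = V y r i := by
    intro i hi
    simp [List.getD, Nat.lt_succ_of_le hi]
  refine ⟨(List.range (e + 1)).map (V y r), ?_, fun i hi => ?_⟩
  · rw [hL 0 (by omega)]
    rfl
  · rw [hL i (by omega), hL (i + 1) (by omega), stp_iff h]

theorem si_Rd {g A : ℕ → Bool} (hg : TLe g A) : SI A fun x : List Bool × ℕ => Rd g x.1 x.2 := by
  have hq : SI A fun x : ℕ × Bool => g x.1 = x.2 := (SI.query (B := g)).trans hg
  refine SI.and ?_ ?_
  · refine SI.all_lt (α := List Bool × ℕ) (p := fun x j => g (x.1.length + j) = false)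
      (f := fun x => x.2) ?_ Primrec.snd
    exact hq.comp (f := fun x : (List Bool × ℕ) × ℕ => (x.1.1.length + x.2, false))
      ((Primrec.nat_add.comp (Primrec.list_length.comp (Primrec.fst.comp Primrec.fst))
        Primrec.snd).pair (Primrec.const false))
  · exact hq.comp (f := fun x : List Bool × ℕ => (x.1.length + x.2, true))
      ((Primrec.nat_add.comp (Primrec.list_length.comp Primrec.fst) Primrec.snd).pair
        (Primrec.const true))

theorem si_Stp {g A : ℕ → Bool} (hy : TLe y A) (hr : TLe r A) (hg : TLe g A) :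
    SI A fun x : (ℕ × List Bool) × List Bool => Stp y r g x.1.1 x.1.2 x.2 := by
  have hq : SI A fun x : ℕ × Bool => rc r x.1 = x.2 :=
    (SI.query (B := rc r)).trans ((rc_le r).trans hr)
  have hG : SI A fun x : (ℕ × List Bool) × List Bool => G y x.1 x.2 := (us_G.toSI y).trans hy
  refine SI.ex (p := fun (x : (ℕ × List Bool) × List Bool) (k : ℕ) => Rd g x.1.2 k ∧
    ((rc r k = true ∧ x.2 = ex x.1.2 k) ∨ (rc r k = false ∧ G y (x.1.1, ex x.1.2 k) x.2)))
    (SI.and ?_ (SI.or (SI.and ?_ (SI.of_prim ?_)) (SI.and ?_ ?_)))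
  · exact (si_Rd hg).comp (f := fun x : ((ℕ × List Bool) × List Bool) × ℕ => (x.1.1.2, x.2))
      ((Primrec.snd.comp (Primrec.fst.comp Primrec.fst)).pair Primrec.snd)
  · exact hq.comp (f := fun x : ((ℕ × List Bool) × List Bool) × ℕ => (x.2, true))
      (Primrec.snd.pair (Primrec.const true))
  · exact Primrec.eq.comp (Primrec.snd.comp Primrec.fst) (primrec_ex.comp
      (Primrec.snd.comp (Primrec.fst.comp Primrec.fst)) Primrec.snd)
  · exact hq.comp (f := fun x : ((ℕ × List Bool) × List Bool) × ℕ => (x.2, false))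
      (Primrec.snd.pair (Primrec.const false))
  · exact hG.comp (f := fun x : ((ℕ × List Bool) × List Bool) × ℕ =>
      ((x.1.1.1, ex x.1.1.2 x.2), x.1.2))
      (((Primrec.fst.comp (Primrec.fst.comp Primrec.fst)).pair (primrec_ex.comp
      (Primrec.snd.comp (Primrec.fst.comp Primrec.fst)) Primrec.snd)).pair
        (Primrec.snd.comp Primrec.fst))

theorem jump_le (h : ¬ TLe r y) : TLe (jump (join y (lm y r))) (join (join y (lm y r)) r) := by
  set A := join (join y (lm y r)) r with hA
  have hy : TLe y A := (tLe_join_left _ _).trans (tLe_join_left _ _)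
  have hg : TLe (lm y r) A := (tLe_join_right _ _).trans (tLe_join_left _ _)
  have hr : TLe r A := tLe_join_right _ _
  rw [tLe_iff_SI]
  have h1 : SI A fun x : ℕ × Bool => ∃ L : List (List Bool), (L.getD 0 [] = [] ∧
      ∀ i < x.1, Stp y r (lm y r) i (L.getD i []) (L.getD (i + 1) [])) ∧
      ∃ k, Rd (lm y r) (L.getD x.1 []) k ∧ rc r k = !x.2 := by
    refine SI.ex (p := fun (x : ℕ × Bool) (L : List (List Bool)) => (L.getD 0 [] = [] ∧
      ∀ i < x.1, Stp y r (lm y r) i (L.getD i []) (L.getD (i + 1) [])) ∧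
      ∃ k, Rd (lm y r) (L.getD x.1 []) k ∧ rc r k = !x.2)
      (SI.and (SI.and (SI.of_prim ?_) ?_) ?_)
    · exact Primrec.eq.comp ((Primrec.list_getD []).comp Primrec.snd (Primrec.const 0))
        (Primrec.const [])
    · refine SI.all_lt (α := (ℕ × Bool) × List (List Bool)) (p := fun x i =>
        Stp y r (lm y r) i (x.2.getD i []) (x.2.getD (i + 1) [])) (f := fun x => x.1.1) ?_
        (Primrec.fst.comp Primrec.fst)
      refine (si_Stp hy hr hg).comp (f := fun x : ((ℕ × Bool) × List (List Bool)) × ℕ =>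
        ((x.2, x.1.2.getD x.2 []), x.1.2.getD (x.2 + 1) [])) ?_
      exact (Primrec.snd.pair ((Primrec.list_getD []).comp (Primrec.snd.comp Primrec.fst)
        Primrec.snd)).pair ((Primrec.list_getD []).comp (Primrec.snd.comp Primrec.fst)
          (Primrec.succ.comp Primrec.snd))
    · refine SI.ex (α := (ℕ × Bool) × List (List Bool)) (p := fun x k =>
        Rd (lm y r) (x.2.getD x.1.1 []) k ∧ rc r k = !x.1.2) (SI.and ?_ ?_)
      · exact (si_Rd hg).comp (f := fun x : ((ℕ × Bool) × List (List Bool)) × ℕ =>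
          (x.1.2.getD x.1.1.1 [], x.2)) (((Primrec.list_getD []).comp (Primrec.snd.comp Primrec.fst)
          (Primrec.fst.comp (Primrec.fst.comp Primrec.fst))).pair Primrec.snd)
      · exact ((SI.query (B := rc r)).trans ((rc_le r).trans hr)).comp
          (f := fun x : ((ℕ × Bool) × List (List Bool)) × ℕ => (x.2, !x.1.1.2))
          (Primrec.snd.pair (Primrec.not.comp (Primrec.snd.comp (Primrec.fst.comp Primrec.fst))))
  refine h1.of_eq fun x => ?_
  rw [jump_lm' h]
  constructor
  · rintro ⟨L, hL, k, h2, h3⟩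
    rw [run_eq h hL x.1 le_rfl, rd_iff] at h2
    rw [← h2]
    exact h3
  · intro h2
    obtain ⟨L, hL⟩ := exists_run h x.1
    refine ⟨L, hL, ke y r x.1, ?_, h2⟩
    rw [run_eq h hL x.1 le_rfl, rd_iff]

/-- The theorem of Posner and Robinson. -/
theorem posner_robinson (h : ¬ TLe r y) : ∃ h : ℕ → Bool, TLe y h ∧ TLe (jump h) (join h r) :=
  ⟨_, tLe_join_left _ _, jump_le h⟩

end Pool.Agent.N620.GP
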