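import Pool.Agent.N620.GP.Ur

set_option autoImplicit false

/-! Uniform functions and the jump hierarchy. -/

namespace Pool.Agent.N620.GP

open Encodable Pool.Agent.Helper227
open Pool.Agent.H685R3 (Halt jump_iff s1_Halt US TuringInvariant Determined)
open Pool.Agent.N620.WP (J)
open Pool.Agent.N620.RC (cl cl_J Tr)

theorem us_idt' : US fun z (x : ℕ × Bool) => idt z x.1 = x.2 := by
  have hN : US fun z (m : ℕ) => idt z m = false := by
    have h1 : US fun z (m : ℕ) =>
        Option.map (fun x => encode x) (decode m : Option (List Bool × ℕ × Bool)) ≠ some m ∨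
        ∃ x : List Bool × ℕ × Bool, encode x = m ∧
          ((x.2.1 % 4 = 0 ∧ z (x.2.1 / 4) = !x.2.2) ∨
            (x.2.1 % 4 = 2 ∧ ¬ x.1[x.2.1 / 4]? = some x.2.2)) := by
      refine US.or (US.of_prim (PrimrecPred.not ?_)) (US.ex (p := fun z (m : ℕ)
        (x : List Bool × ℕ × Bool) => encode x = m ∧
          ((x.2.1 % 4 = 0 ∧ z (x.2.1 / 4) = !x.2.2) ∨
            (x.2.1 % 4 = 2 ∧ ¬ x.1[x.2.1 / 4]? = some x.2.2))) (US.and (US.of_prim ?_)
              (US.or (US.and (US.of_prim ?_) ?_)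
                (US.of_prim (PrimrecPred.and ?_ (PrimrecPred.not ?_))))))
      · exact Primrec.eq.comp (Primrec.option_map (Primrec.decode (α := List Bool × ℕ × Bool))
          (Primrec.encode.comp Primrec.snd)) Primrec.option_some
      · exact Primrec.eq.comp (Primrec.encode.comp Primrec.snd) Primrec.fst
      · exact (primrecPred_mod 4 0).comp (f := fun y : ℕ × List Bool × ℕ × Bool => y.2) Primrec.snd
      · exact US.query.comp (f := fun y : ℕ × List Bool × ℕ × Bool => (y.2.2.1 / 4, !y.2.2.2))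
          ((Primrec.nat_div.comp (Primrec.fst.comp (Primrec.snd.comp Primrec.snd))
            (Primrec.const 4)).pair (Primrec.not.comp (Primrec.snd.comp (Primrec.snd.comp
              Primrec.snd))))
      · exact (primrecPred_mod 4 2).comp (f := fun y : ℕ × List Bool × ℕ × Bool => y.2) Primrec.snd
      · exact Primrec.eq.comp (Primrec.list_getElem?.comp (Primrec.fst.comp Primrec.snd)
          (Primrec.nat_div.comp (Primrec.fst.comp (Primrec.snd.comp Primrec.snd))
            (Primrec.const 4)))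
          (Primrec.option_some.comp (Primrec.snd.comp (Primrec.snd.comp Primrec.snd)))
    refine h1.of_eq fun z m => ?_
    unfold idt
    rw [decide_eq_false_iff_not]
    constructor
    · rintro (h2 | ⟨x, rfl, h2⟩)
      · rintro ⟨x, rfl, -⟩
        rw [encodek] at h2
        exact h2 rfl
      · rintro ⟨y, h3, h4⟩
        rw [encode_inj.1 h3] at h4
        rcases h4 with h4 | ⟨h4, h5⟩ | ⟨h4, h5⟩ <;> rcases h2 with ⟨h2, h6⟩ | ⟨h2, h6⟩
        · omega
        · omega
        · rw [h5] at h6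
          cases h7 : x.2.2 <;> rw [h7] at h6 <;> cases h6
        · omega
        · omega
        · exact h6 h5
    · intro h2
      by_cases h3 : ∃ x : List Bool × ℕ × Bool, encode x = m
      · obtain ⟨x, rfl⟩ := h3
        right
        refine ⟨x, rfl, ?_⟩
        have h4 : ¬ Pi z x := fun h4 => h2 ⟨x, rfl, h4⟩
        unfold Pi at h4
        push Not at h4
        obtain ⟨h5, h6, h7⟩ := h4
        have h8 : x.2.1 % 4 = 0 ∨ x.2.1 % 4 = 2 := by omega
        rcases h8 with h8 | h8
        · left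
          refine ⟨h8, ?_⟩
          have := h6 h8
          cases h9 : x.2.2 <;> cases h10 : z (x.2.1 / 4) <;> simp_all
        · exact Or.inr ⟨h8, h7 h8⟩
      · left
        intro h4
        rw [Option.map_eq_some_iff] at h4
        obtain ⟨x, -, h5⟩ := h4
        exact h3 ⟨x, h5⟩
  have h2 : US fun z (x : ℕ × Bool) => (x.2 = true ∧ idt z x.1 = true) ∨
      (x.2 = false ∧ idt z x.1 = false) := by
    refine US.or (US.and (US.of_prim ?_) ?_) (US.and (US.of_prim ?_) ?_)
    · exact Primrec.eq.comp Primrec.snd (Primrec.const true)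
    · exact us_idt.comp Primrec.fst
    · exact Primrec.eq.comp Primrec.snd (Primrec.const false)
    · exact hN.comp (f := fun x : ℕ × Bool => x.1) Primrec.fst
  refine h2.of_eq fun z x => ?_
  rcases x with ⟨m, b⟩
  cases b <;> simp

/-- The transformation of entries for the join with a constant. -/
def hcc (x : List Bool × ℕ × Bool) : ℕ × Bool :=
  if x.2.1 % 2 = 1 then (2 * encode (x.1, x.2.1 / 2, x.2.2) + 1, false) else
    if x.2.1 % 4 = 0 then (2 * (x.2.1 / 4), !x.2.2) else
      (2 * encode (x.1, 2 * (x.2.1 / 4), x.2.2) + 1, false)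

theorem primrec_hcc : Primrec hcc := by
  have hd : ∀ k : ℕ, Primrec fun x : List Bool × ℕ × Bool => x.2.1 / k := fun k =>
    Primrec.nat_div.comp (Primrec.fst.comp Primrec.snd) (Primrec.const k)
  have hb : Primrec fun x : List Bool × ℕ × Bool => x.2.2 := Primrec.snd.comp Primrec.snd
  have ho : ∀ {f : List Bool × ℕ × Bool → ℕ}, Primrec f →
      Primrec fun x : List Bool × ℕ × Bool => (2 * encode (x.1, f x, x.2.2) + 1, false) :=
    fun hf => (Primrec.succ.comp (Primrec.nat_mul.comp (Primrec.const 2) (Primrec.encode.comp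
      (Primrec.fst.pair (hf.pair hb))))).pair (Primrec.const false)
  refine Primrec.ite (primrecPred_mod 2 1) (ho (hd 2)) (Primrec.ite (primrecPred_mod 4 0) ?_
    (ho (Primrec.nat_mul.comp (Primrec.const 2) (hd 4))))
  exact (Primrec.nat_mul.comp (Primrec.const 2) (hd 4)).pair (Primrec.not.comp hb)

theorem at_cc_odd (c φ : ℕ → Bool) (σ : List Bool) (q : ℕ) (b : Bool) :
    At (Rx (tr hcc) (join c φ)) σ (2 * q + 1) b ↔ At φ σ q b := by
  rw [at_tr]
  have h1 : (2 * q + 1) % 2 = 1 := by omega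
  have h2 : (2 * q + 1) / 2 = q := by omega
  simp only [hcc, h1, h2, if_true, join_odd, Bool.xor_false]
  rfl

theorem at_cc_zero (c φ : ℕ → Bool) (σ : List Bool) (k : ℕ) (b : Bool) :
    At (Rx (tr hcc) (join c φ)) σ (2 * (2 * k)) b ↔ c k = b := by
  rw [at_tr]
  have h1 : ¬ (2 * (2 * k)) % 2 = 1 := by omega
  have h2 : (2 * (2 * k)) % 4 = 0 := by omega
  have h3 : (2 * (2 * k)) / 4 = k := by omega
  simp only [hcc, h1, h2, h3, if_false, if_true, join_even]
  cases c k <;> cases b <;> simp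

theorem at_cc_two (c φ : ℕ → Bool) (σ : List Bool) (k : ℕ) (b : Bool) :
    At (Rx (tr hcc) (join c φ)) σ (2 * (2 * k + 1)) b ↔ At φ σ (2 * k) b := by
  rw [at_tr]
  have h1 : ¬ (2 * (2 * k + 1)) % 2 = 1 := by omega
  have h2 : ¬ (2 * (2 * k + 1)) % 4 = 0 := by omega
  have h3 : (2 * (2 * k + 1)) / 4 = k := by omega
  simp only [hcc, h1, h2, h3, if_false, join_odd, Bool.xor_false]
  rfl

theorem Tab.cc {φ z : ℕ → Bool} {S : (ℕ → Bool) → ℕ → Bool} (h : Tab φ z S) (c : ℕ → Bool) :
    Tab (Rx (tr hcc) (join c φ)) z fun x => join c (S x) := by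
  refine ⟨⟨?_, ?_⟩, ?_⟩
  · intro σ τ i b hst hi
    rcases Nat.even_or_odd' i with ⟨j, rfl | rfl⟩
    · rcases Nat.even_or_odd' j with ⟨k, rfl | rfl⟩
      · rw [at_cc_zero] at hi ⊢
        exact hi
      · rw [at_cc_two] at hi ⊢
        exact h.1.mono _ _ _ _ hst hi
    · rw [at_cc_odd] at hi ⊢
      exact h.1.mono _ _ _ _ hst hi
  · intro σ i
    rcases Nat.even_or_odd' i with ⟨j, rfl | rfl⟩
    · rcases Nat.even_or_odd' j with ⟨k, rfl | rfl⟩
      · refine ⟨σ, c k, List.prefix_rfl, ?_⟩
        rw [at_cc_zero]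
      · obtain ⟨τ, b, h1, h2⟩ := h.1.dense σ (2 * k)
        refine ⟨τ, b, h1, ?_⟩
        rw [at_cc_two]
        exact h2
    · obtain ⟨τ, b, h1, h2⟩ := h.1.dense σ j
      refine ⟨τ, b, h1, ?_⟩
      rw [at_cc_odd]
      exact h2
  · intro g hg n j b hj'
    have hg' : Tot φ g := by
      intro i
      obtain ⟨n, b, h1⟩ := hg (2 * i + 1)
      rw [at_cc_odd] at h1
      exact ⟨n, b, h1⟩
    beta_reduce
    rcases Nat.even_or_odd' j with ⟨k, rfl | rfl⟩
    · rw [at_cc_zero] at hj'
      rw [join_even]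
      exact hj'
    · rw [at_cc_two] at hj'
      rw [join_odd]
      exact h.2 g hg' n k b hj'

/-- The instances `(x, y, e)` such that `x` is the `e`-th real computable from `y`. -/
def Ins : Type := {ι : (ℕ → Bool) × (ℕ → Bool) × ℕ //
  ∀ n b, ι.1 n = b ↔ encode ((n, b) : ℕ × Bool) ∈ WE ι.2.1 ι.2.2}

/-- Uniform functions. -/
structure SS (T : (ℕ → Bool) → ℕ → Bool) : Prop where
  mono : UR (fun ι : Ins => T ι.1.1) fun ι => join (sg ι.1.2.2) (T ι.1.2.1)
  dd : UR (fun z => T (dd z)) fun z => jump (T z)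
  tab : ∃ F, (∀ z, Tab (F z) z T) ∧ UR F T
  self : UR (fun z => z) T

theorem sg_join_le (e : ℕ) (x : ℕ → Bool) : TLe (join (sg e) x) x := by
  refine join_tLe ?_ (TLe.refl x)
  rw [tLe_iff_SI]
  refine (SI.of_prim (p := fun a : ℕ × Bool => decide (a.1 = e) = a.2) ?_).of_eq fun a => Iff.rfl
  have h3 : PrimrecPred fun a : ℕ × Bool => a.1 = e := Primrec.eq.comp Primrec.fst (Primrec.const e)
  exact Primrec.eq.comp h3.decide Primrec.snd

theorem SS.le {T : (ℕ → Bool) → ℕ → Bool} (h : SS T) {x y : ℕ → Bool} (hxy : TLe x y) :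
    TLe (T x) (T y) := by
  obtain ⟨e, he⟩ := exists_index hxy
  exact (h.mono.tLe ⟨(x, y, e), he⟩).trans (sg_join_le e (T y))

theorem ss_id : SS fun z => z := by
  refine ⟨?_, ?_, ⟨idt, tab_idt, ?_⟩, UR.refl _⟩
  · refine UR.of_sg (e := fun ι : Ins => ι.1.2.2) (q := fun B x =>
      encode ((x.2.1, x.2.2) : ℕ × Bool) ∈ WE B x.1) ?_ fun ι n b => ι.2 n b
    exact (us_WE (ψ := fun B _ => B) (US.query.comp (f := fun x : ℕ × ℕ × Bool => (x.2.1, x.2.2))
      ((Primrec.fst.comp Primrec.snd).pair (Primrec.snd.comp Primrec.snd)))).comp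
        (f := fun x : ℕ × ℕ × Bool => (0, x.1, encode ((x.2.1, x.2.2) : ℕ × Bool)))
        ((Primrec.const 0).pair (Primrec.fst.pair (Primrec.encode.comp
          ((Primrec.fst.comp Primrec.snd).pair (Primrec.snd.comp Primrec.snd)))))
  · obtain ⟨f, hf, h⟩ := exists_dd
    exact UR.of_rx hf h
  · exact ⟨_, us_idt', fun z n b => Iff.rfl⟩

theorem SS.jump {T : (ℕ → Bool) → ℕ → Bool} (h : SS T) :
    SS fun z => Pool.Agent.Helper227.jump (T z) := by
  obtain ⟨h', hh⟩ := exists_jt
  obtain ⟨F, hF, hF'⟩ := h.tab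
  refine ⟨?_, h.dd.jump, ⟨fun z => Rx (tr h') (Pool.Agent.Helper227.jump (F z)),
    fun z => (hF z).jmp hh, ?_⟩, h.self.trans (UR.to_jump T)⟩
  · exact h.mono.jump.trans (UR.sgjump _ _)
  · exact (UR.of_rx (primrec_tr hh.prim) fun z => rfl).trans hF'.jump

theorem SS.sum {T : ℕ → (ℕ → Bool) → ℕ → Bool} (h : ∀ n, SS (T n)) (c0 : ℕ → Bool) :
    ∃ c, SS (fun z => join (join c0 c) (J fun n => T n z)) := by
  obtain ⟨c1, h1⟩ := UR.J fun n => (h n).mono
  obtain ⟨c2, h2⟩ := UR.J fun n => (h n).dd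
  choose F hF hF' using fun n => (h n).tab
  obtain ⟨c3, h3⟩ := UR.J hF'
  refine ⟨join c1 (join c2 c3), ?_⟩
  -- the projections
  have key : ∀ {I : Type} (G : I → ℕ → Bool),
      (UR (fun _ => join c0 (join c1 (join c2 c3))) fun ι => join (join c0 (join c1 (join c2 c3)))
        (G ι)) ∧ (UR (fun _ => c1) fun ι => join (join c0 (join c1 (join c2 c3))) (G ι)) ∧
      (UR (fun _ => c2) fun ι => join (join c0 (join c1 (join c2 c3))) (G ι)) ∧
      (UR (fun _ => c3) fun ι => join (join c0 (join c1 (join c2 c3))) (G ι)) ∧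
      UR G fun ι => join (join c0 (join c1 (join c2 c3))) (G ι) := by
    intro I G
    have k0 := UR.left (fun _ : I => join c0 (join c1 (join c2 c3))) G
    have k1 := (UR.right (fun _ : I => c0) fun _ => join c1 (join c2 c3)).trans k0
    have k2 := (UR.right (fun _ : I => c1) fun _ => join c2 c3).trans k1
    exact ⟨k0, (UR.left (fun _ : I => c1) fun _ => join c2 c3).trans k1,
      (UR.left (fun _ : I => c2) fun _ => c3).trans k2,
      (UR.right (fun _ : I => c2) fun _ => c3).trans k2, UR.right _ G⟩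
  refine ⟨?_, ?_, ⟨fun z => Rx (tr hcc) (join (join c0 (join c1 (join c2 c3)))
    (Rx (tr hj) (J fun n => F n z))), fun z => (Tab.jn fun n => hF n z).cc _, ?_⟩, ?_⟩
  · obtain ⟨k0, k1, -, -, kG⟩ := key fun ι : Ins => J fun n => T n ι.1.2.1
    have r := UR.right (fun ι : Ins => sg ι.1.2.2) fun ι => join (join c0 (join c1 (join c2 c3)))
      (J fun n => T n ι.1.2.1)
    refine (k0.trans r).join (h1.trans (UR.join (k1.trans r) ?_))
    refine (UR.sgJ (fun ι : Ins => ι.1.2.2) fun n ι => T n ι.1.2.1).trans (UR.join ?_ (kG.trans r))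
    exact UR.left _ _
  · obtain ⟨k0, -, k2, -, kG⟩ := key fun z => J fun n => T n z
    have r := UR.to_jump fun z => join (join c0 (join c1 (join c2 c3))) (J fun n => T n z)
    refine (k0.trans r).join (h2.trans (UR.join (k2.trans r) ?_))
    exact (UR.Jjump T).trans kG.jump
  · obtain ⟨k0, -, -, k3, kG⟩ := key fun z => J fun n => T n z
    refine (UR.of_rx (primrec_tr primrec_hcc) fun z => rfl).trans (k0.join ?_)
    refine (UR.of_rx (G := fun z => J fun n => F n z) (primrec_tr ?_) fun z => rfl).trans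
      (h3.trans (k3.join kG))
    have hr2 : Primrec fun r : ℕ => (r / 2).unpair :=
      Primrec.unpair.comp (Primrec.nat_div.comp Primrec.id (Primrec.const 2))
    have hjm : Primrec jm := Primrec.fst.comp hr2
    have hji : Primrec ji := by
      refine Primrec.ite ?_ ?_ (Primrec.snd.comp hr2)
      · exact Primrec.eq.comp (Primrec.nat_mod.comp Primrec.id (Primrec.const 2))
          (Primrec.const 0)
      · exact Primrec.nat_mul.comp (Primrec.const 2) (Primrec.snd.comp hr2)
    have hi : Primrec fun x : List Bool × ℕ × Bool => x.2.1 := Primrec.fst.comp Primrec.snd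
    exact (Primrec₂.natPair.comp (hjm.comp hi) (Primrec.encode.comp (Primrec.fst.pair
      ((hji.comp hi).pair (Primrec.snd.comp Primrec.snd))))).pair (Primrec.const false)
  · exact (h 0).self.trans ((UR.cJ T 0).trans (UR.right _ _))

/-- The jump hierarchy. -/
inductive HS : ((ℕ → Bool) → ℕ → Bool) → Prop
  | id : HS fun z => z
  | jump {T : (ℕ → Bool) → ℕ → Bool} : HS T → HS fun z => Pool.Agent.Helper227.jump (T z)
  | sum {T : ℕ → (ℕ → Bool) → ℕ → Bool} (c : ℕ → Bool) : (∀ n, HS (T n)) →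
      SS (fun z => join c (J fun n => T n z)) → HS fun z => join c (J fun n => T n z)

theorem HS.ss {T : (ℕ → Bool) → ℕ → Bool} (h : HS T) : SS T := by
  induction h with
  | id => exact ss_id
  | jump _ ih => exact ih.jump
  | sum c _ h _ => exact h

theorem HS.meas {T : (ℕ → Bool) → ℕ → Bool} (h : HS T) : Measurable T := by
  induction h with
  | id => exact measurable_id
  | jump _ ih => exact measurable_jump.comp ih
  | sum c _ _ ih => exact measurable_join measurable_const (measurable_J ih)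

end Pool.Agent.N620.GP
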