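import Pool.Agent.N620.GP.Cg
import Pool.Agent.H685R3.Gen
import Pool.Agent.N620.RC.Main

set_option autoImplicit false

/-! Transformations of tables. -/

namespace Pool.Agent.N620.GP

open Encodable Pool.Agent.Helper227
open Pool.Agent.H685R3 (Halt jump_iff s1_Halt US)
open Pool.Agent.N620.WP (J pre_eq_iff)
open Pool.Agent.N620.RC (cl cl_J Tr)

/-- Reindexing with complementation. -/
def Rx (f : ℕ → ℕ × Bool) (x : ℕ → Bool) : ℕ → Bool := fun m => xor (x (f m).1) (f m).2

/-- The composition of reindexings. -/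
def rr (f g : ℕ → ℕ × Bool) (m : ℕ) : ℕ × Bool := ((g (f m).1).1, xor (g (f m).1).2 (f m).2)

theorem rx_rx (f g : ℕ → ℕ × Bool) (x : ℕ → Bool) : Rx f (Rx g x) = Rx (rr f g) x := by
  funext m
  simp [Rx, rr]

theorem primrec_xor : Primrec₂ xor := Primrec.dom_bool₂ xor

theorem primrec_rr {f g : ℕ → ℕ × Bool} (hf : Primrec f) (hg : Primrec g) : Primrec (rr f g) :=
  (Primrec.fst.comp (hg.comp (Primrec.fst.comp hf))).pair
    (primrec_xor.comp (Primrec.snd.comp (hg.comp (Primrec.fst.comp hf))) (Primrec.snd.comp hf))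

/-- The reindexing given by a transformation of entries. -/
def tr (h : List Bool × ℕ × Bool → ℕ × Bool) (m : ℕ) : ℕ × Bool :=
  ((decode m : Option (List Bool × ℕ × Bool)).map h).getD (0, false)

theorem primrec_tr {h : List Bool × ℕ × Bool → ℕ × Bool} (hh : Primrec h) : Primrec (tr h) :=
  Primrec.option_getD.comp (Primrec.option_map (Primrec.decode (α := List Bool × ℕ × Bool))
    (hh.comp Primrec.snd)) (Primrec.const (0, false))

theorem at_tr (h : List Bool × ℕ × Bool → ℕ × Bool) (φ : ℕ → Bool) (σ : List Bool) (i : ℕ)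
    (b : Bool) : At (Rx (tr h) φ) σ i b ↔ xor (φ (h (σ, i, b)).1) (h (σ, i, b)).2 = true := by
  unfold At Rx tr
  rw [encodek]
  rfl

/-! ### Reindexing -/

/-- The transformation of entries for a reindexing. -/
def hr (f : ℕ → ℕ × Bool) (x : List Bool × ℕ × Bool) : ℕ × Bool :=
  (if x.2.1 % 2 = 0 then encode (x.1, 2 * (f (x.2.1 / 2)).1, xor x.2.2 (f (x.2.1 / 2)).2)
    else encode (x.1, x.2.1 / 2, x.2.2), false)

theorem at_hr_even (f : ℕ → ℕ × Bool) (φ : ℕ → Bool) (σ : List Bool) (j : ℕ) (b : Bool) :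
    At (Rx (tr (hr f)) φ) σ (2 * j) b ↔ At φ σ (2 * (f j).1) (xor b (f j).2) := by
  rw [at_tr]
  unfold hr At
  simp

theorem at_hr_odd (f : ℕ → ℕ × Bool) (φ : ℕ → Bool) (σ : List Bool) (q : ℕ) (b : Bool) :
    At (Rx (tr (hr f)) φ) σ (2 * q + 1) b ↔ At φ σ q b := by
  rw [at_tr]
  unfold hr At
  have h1 : (2 * q + 1) % 2 = 1 := by omega
  have h2 : (2 * q + 1) / 2 = q := by omega
  simp [h1, h2]

theorem Tab.rx {φ z : ℕ → Bool} {S : (ℕ → Bool) → ℕ → Bool} (h : Tab φ z S) (f : ℕ → ℕ × Bool) :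
    Tab (Rx (tr (hr f)) φ) z fun x => Rx f (S x) := by
  refine ⟨⟨?_, ?_⟩, ?_⟩
  · intro σ τ i b hst hi
    rcases Nat.even_or_odd' i with ⟨j, rfl | rfl⟩
    · rw [at_hr_even] at hi ⊢
      exact h.1.mono _ _ _ _ hst hi
    · rw [at_hr_odd] at hi ⊢
      exact h.1.mono _ _ _ _ hst hi
  · intro σ i
    rcases Nat.even_or_odd' i with ⟨j, rfl | rfl⟩
    · obtain ⟨τ, b, h1, h2⟩ := h.1.dense σ (2 * (f j).1)
      refine ⟨τ, xor b (f j).2, h1, ?_⟩
      rw [at_hr_even]
      simpa using h2
    · obtain ⟨τ, b, h1, h2⟩ := h.1.dense σ j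
      refine ⟨τ, b, h1, ?_⟩
      rw [at_hr_odd]
      exact h2
  · intro g hg n j b hj
    have hg' : Tot φ g := by
      intro i
      obtain ⟨n, b, h1⟩ := hg (2 * i + 1)
      rw [at_hr_odd] at h1
      exact ⟨n, b, h1⟩
    rw [at_hr_even] at hj
    have h1 := h.2 g hg' n _ _ hj
    simp only [Rx, h1]
    simp

/-! ### Joins -/

/-- The number of the component. -/
def jm (i : ℕ) : ℕ := (i / 2).unpair.1

/-- The index in the component. -/
def ji (i : ℕ) : ℕ := if i % 2 = 0 then 2 * (i / 2).unpair.2 else (i / 2).unpair.2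

/-- The transformation of entries for the join. -/
def hj (x : List Bool × ℕ × Bool) : ℕ × Bool :=
  (Nat.pair (jm x.2.1) (encode (x.1, ji x.2.1, x.2.2)), false)

theorem at_hj (Φ : ℕ → ℕ → Bool) (σ : List Bool) (i : ℕ) (b : Bool) :
    At (Rx (tr hj) (J Φ)) σ i b ↔ At (Φ (jm i)) σ (ji i) b := by
  rw [at_tr]
  unfold hj At J
  simp

theorem Tab.jn {Φ : ℕ → ℕ → Bool} {z : ℕ → Bool} {S : ℕ → (ℕ → Bool) → ℕ → Bool}
    (h : ∀ n, Tab (Φ n) z (S n)) : Tab (Rx (tr hj) (J Φ)) z fun x => J fun n => S n x := by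
  refine ⟨⟨?_, ?_⟩, ?_⟩
  · intro σ τ i b hst hi
    rw [at_hj] at hi ⊢
    exact (h _).1.mono _ _ _ _ hst hi
  · intro σ i
    obtain ⟨τ, b, h1, h2⟩ := (h (jm i)).1.dense σ (ji i)
    refine ⟨τ, b, h1, ?_⟩
    rw [at_hj]
    exact h2
  · intro g hg n j b hj'
    have hg' : ∀ m, Tot (Φ m) g := by
      intro m i
      obtain ⟨n, b, h1⟩ := hg (2 * Nat.pair m i + 1)
      rw [at_hj] at h1
      have h2 : (2 * Nat.pair m i + 1) / 2 = Nat.pair m i := by omega
      have h3 : (2 * Nat.pair m i + 1) % 2 = 1 := by omega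
      refine ⟨n, b, ?_⟩
      simpa [jm, ji, h2, h3] using h1
    rw [at_hj] at hj'
    have h2 : ji (2 * j) = 2 * j.unpair.2 := by simp [ji]
    have h3 : jm (2 * j) = j.unpair.1 := by simp [jm]
    rw [h2, h3] at hj'
    exact (h _).2 g (hg' _) n _ _ hj'

/-! ### Jumps -/

/-- The string `σ` forces that `e` is in the jump. -/
def Po (φ : ℕ → Bool) (σ : List Bool) (e : ℕ) : Prop :=
  ∃ ρ : List Bool, Halt e ρ ∧ ∀ i < ρ.length, At φ σ (2 * i) (ρ.getD i false)

theorem us_Po : US fun φ (x : List Bool × ℕ) => Po φ x.1 x.2 := by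
  refine US.ex (p := fun φ (x : List Bool × ℕ) (ρ : List Bool) =>
    Halt x.2 ρ ∧ ∀ i < ρ.length, At φ x.1 (2 * i) (ρ.getD i false)) (US.and (US.of_s1 ?_) ?_)
  · exact s1_Halt.comp ((Primrec.snd.comp Primrec.fst).pair Primrec.snd)
  · refine US.all_lt (α := (List Bool × ℕ) × List Bool) (p := fun φ x i =>
      At φ x.1.1 (2 * i) (x.2.getD i false)) (f := fun x => x.2.length) ?_
      (Primrec.list_length.comp Primrec.snd)
    exact US.query.comp (f := fun y : ((List Bool × ℕ) × List Bool) × ℕ =>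
      (encode (y.1.1.1, 2 * y.2, y.1.2.getD y.2 false), true))
      ((Primrec.encode.comp ((Primrec.fst.comp (Primrec.fst.comp Primrec.fst)).pair
        ((Primrec.nat_mul.comp (Primrec.const 2) Primrec.snd).pair
          ((Primrec.list_getD false).comp (Primrec.snd.comp Primrec.fst) Primrec.snd)))).pair
            (Primrec.const true))

theorem us_exPo : US fun φ (x : List Bool × ℕ) =>
    ∃ τ : List Bool, τ.take x.1.length = x.1 ∧ Po φ τ x.2 := by
  refine US.ex (p := fun φ (x : List Bool × ℕ) (τ : List Bool) =>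
    τ.take x.1.length = x.1 ∧ Po φ τ x.2) (US.and (US.of_prim ?_) ?_)
  · exact Primrec.eq.comp (Primrec.list_take.comp (Primrec.list_length.comp
      (Primrec.fst.comp Primrec.fst)) Primrec.snd) (Primrec.fst.comp Primrec.fst)
  · exact us_Po.comp (f := fun y : (List Bool × ℕ) × List Bool => (y.2, y.1.2))
      (Primrec.snd.pair (Primrec.snd.comp Primrec.fst))

/-- The properties of the transformation of entries for the jump. -/
structure Jt (h : List Bool × ℕ × Bool → ℕ × Bool) : Prop where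
  prim : Primrec h
  pos : ∀ φ σ e, At (Rx (tr h) (jump φ)) σ (2 * e) true ↔ Po φ σ e
  neg : ∀ φ σ e, At (Rx (tr h) (jump φ)) σ (2 * e) false ↔
    ¬ ∃ τ : List Bool, τ.take σ.length = σ ∧ Po φ τ e
  odd : ∀ φ σ q b, At (Rx (tr h) (jump φ)) σ (2 * q + 1) b ↔ At φ σ q b

theorem exists_jt : ∃ h, Jt h := by
  obtain ⟨f1, hf1, h1⟩ := us_Po.to_jump
  obtain ⟨f2, hf2, h2⟩ := us_exPo.to_jump
  have h0 : US fun φ (x : List Bool × ℕ × Bool) => At φ x.1 x.2.1 x.2.2 :=
    US.query.comp (f := fun x : List Bool × ℕ × Bool => (encode x, true))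
      (Primrec.encode.pair (Primrec.const true))
  obtain ⟨f3, hf3, h3⟩ := h0.to_jump
  let h : List Bool × ℕ × Bool → ℕ × Bool := fun x =>
    if x.2.1 % 2 = 0 then
      (if x.2.2 = true then (f1 (x.1, x.2.1 / 2), false) else (f2 (x.1, x.2.1 / 2), true))
    else (f3 (x.1, x.2.1 / 2, x.2.2), false)
  have hd : Primrec fun x : List Bool × ℕ × Bool => x.2.1 / 2 :=
    Primrec.nat_div.comp (Primrec.fst.comp Primrec.snd) (Primrec.const 2)
  refine ⟨h, ?_, ?_, ?_, ?_⟩
  · refine Primrec.ite ?_ (Primrec.ite ?_ ?_ ?_) ?_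
    · exact Primrec.eq.comp (Primrec.nat_mod.comp (Primrec.fst.comp Primrec.snd)
        (Primrec.const 2)) (Primrec.const 0)
    · exact Primrec.eq.comp (Primrec.snd.comp Primrec.snd) (Primrec.const true)
    · exact (hf1.comp (Primrec.fst.pair hd)).pair (Primrec.const false)
    · exact (hf2.comp (Primrec.fst.pair hd)).pair (Primrec.const true)
    · exact (hf3.comp (Primrec.fst.pair (hd.pair (Primrec.snd.comp Primrec.snd)))).pair
        (Primrec.const false)
  · intro φ σ e
    rw [at_tr]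
    have h4 := h1 φ (σ, e)
    simp only at h4
    rw [h4]
    simp [h]
  · intro φ σ e
    rw [at_tr]
    have h4 := h2 φ (σ, e)
    simp only at h4
    rw [h4]
    simp [h]
  · intro φ σ q b
    rw [at_tr]
    have h4 := h3 φ (σ, q, b)
    simp only at h4
    rw [h4]
    have h5 : (2 * q + 1) % 2 = 1 := by omega
    have h6 : (2 * q + 1) / 2 = q := by omega
    simp [h, h5, h6]

theorem Po.mono {φ : ℕ → Bool} (h : Dns φ) {σ τ : List Bool} {e : ℕ} (hst : σ <+: τ)
    (h1 : Po φ σ e) : Po φ τ e := by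
  obtain ⟨ρ, h2, h3⟩ := h1
  exact ⟨ρ, h2, fun i hi => h.mono _ _ _ _ hst (h3 i hi)⟩

theorem pre_of_forall {x : ℕ → Bool} {ρ : List Bool} (h : ∀ i < ρ.length, x i = ρ.getD i false) :
    pre x ρ.length = ρ := by
  refine List.ext_getElem (by simp) fun i h5 h6 => ?_
  rw [getElem_pre, h i h6]
  simp [h6]

theorem Tab.jmp {h : List Bool × ℕ × Bool → ℕ × Bool} (hh : Jt h) {φ z : ℕ → Bool}
    {S : (ℕ → Bool) → ℕ → Bool} (hS : Tab φ z S) :
    Tab (Rx (tr h) (jump φ)) z fun x => jump (S x) := by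
  refine ⟨⟨?_, ?_⟩, ?_⟩
  · intro σ τ i b hst hi
    rcases Nat.even_or_odd' i with ⟨j, rfl | rfl⟩
    · cases b
      · rw [hh.neg] at hi ⊢
        rintro ⟨τ', h1, h2⟩
        refine hi ⟨τ', ?_, h2⟩
        have h3 : τ <+: τ' := by
          rw [List.prefix_iff_eq_take]
          exact h1.symm
        exact (List.prefix_iff_eq_take.1 (hst.trans h3)).symm
      · rw [hh.pos] at hi ⊢
        exact hi.mono hS.1 hst
    · rw [hh.odd] at hi ⊢
      exact hS.1.mono _ _ _ _ hst hi
  · intro σ i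
    rcases Nat.even_or_odd' i with ⟨j, rfl | rfl⟩
    · by_cases h1 : ∃ τ : List Bool, τ.take σ.length = σ ∧ Po φ τ j
      · obtain ⟨τ, h2, h3⟩ := h1
        refine ⟨τ, true, ?_, ?_⟩
        · rw [List.prefix_iff_eq_take]
          exact h2.symm
        · rw [hh.pos]
          exact h3
      · refine ⟨σ, false, List.prefix_rfl, ?_⟩
        rw [hh.neg]
        exact h1
    · obtain ⟨τ, b, h1, h2⟩ := hS.1.dense σ j
      refine ⟨τ, b, h1, ?_⟩
      rw [hh.odd]
      exact h2
  · intro g hg n j b hj'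
    have hg' : Tot φ g := by
      intro i
      obtain ⟨n, b, h1⟩ := hg (2 * i + 1)
      rw [hh.odd] at h1
      exact ⟨n, b, h1⟩
    cases b
    · rw [hh.neg] at hj'
      rw [← Bool.not_eq_true]
      intro h1
      obtain ⟨k, hk⟩ := jump_iff.1 h1
      have h2 : ∀ i < k, ∃ m, At φ (pre g m) (2 * i) (S (join z g) i) := fun i _ =>
        (hS.iff hg' i _).1 rfl
      obtain ⟨m, hm⟩ := Pool.Agent.H685R3.exists_bound
        (P := fun i m => At φ (pre g m) (2 * i) (S (join z g) i))
        (fun i m m' hmm h3 => hS.1.mono _ _ _ _ (pre_prefix g hmm) h3) k h2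
      refine hj' ⟨pre g (max n m), ?_, pre (S (join z g)) k, hk, fun i hi => ?_⟩
      · rw [length_pre, take_pre _ _ _ (le_max_left _ _)]
      · have hi' : i < k := by simpa using hi
        rw [pre_getD _ _ _ _ hi']
        exact hS.1.mono _ _ _ _ (pre_prefix g (le_max_right _ _)) (hm i hi')
    · rw [hh.pos] at hj'
      obtain ⟨ρ, h1, h2⟩ := hj'
      rw [jump_iff]
      refine ⟨ρ.length, ?_⟩
      rw [pre_of_forall fun i hi => hS.2 g hg' n i _ (h2 i hi)]
      exact h1

/-! ### The identity -/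

/-- The entries of the table of the identity over `z`. -/
def Pi (z : ℕ → Bool) (x : List Bool × ℕ × Bool) : Prop :=
  x.2.1 % 2 = 1 ∨ (x.2.1 % 4 = 0 ∧ z (x.2.1 / 4) = x.2.2) ∨
    (x.2.1 % 4 = 2 ∧ x.1[x.2.1 / 4]? = some x.2.2)

open Classical in
/-- The table of the identity over `z`. -/
noncomputable def idt (z : ℕ → Bool) : ℕ → Bool := fun m => decide (∃ x, encode x = m ∧ Pi z x)

theorem at_idt (z : ℕ → Bool) (σ : List Bool) (i : ℕ) (b : Bool) :
    At (idt z) σ i b ↔ Pi z (σ, i, b) := by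
  simp only [At, idt, decide_eq_true_eq]
  constructor
  · rintro ⟨x, h1, h2⟩
    rw [encode_inj.1 h1] at h2
    exact h2
  · intro h
    exact ⟨_, rfl, h⟩

theorem primrecPred_mod (k l : ℕ) : PrimrecPred fun x : List Bool × ℕ × Bool => x.2.1 % k = l :=
  Primrec.eq.comp (Primrec.nat_mod.comp (Primrec.fst.comp Primrec.snd) (Primrec.const k))
    (Primrec.const l)

theorem us_Pi : US Pi := by
  refine US.or (US.of_prim (primrecPred_mod 2 1)) (US.or (US.and (US.of_prim (primrecPred_mod 4 0))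
    ?_) (US.of_prim (PrimrecPred.and (primrecPred_mod 4 2) ?_)))
  · exact US.query.comp (f := fun x : List Bool × ℕ × Bool => (x.2.1 / 4, x.2.2))
      ((Primrec.nat_div.comp (Primrec.fst.comp Primrec.snd) (Primrec.const 4)).pair
        (Primrec.snd.comp Primrec.snd))
  · exact Primrec.eq.comp (Primrec.list_getElem?.comp Primrec.fst
      (Primrec.nat_div.comp (Primrec.fst.comp Primrec.snd) (Primrec.const 4)))
      (Primrec.option_some.comp (Primrec.snd.comp Primrec.snd))

theorem us_idt : US fun z (m : ℕ) => idt z m = true := by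
  have h1 : US fun z (m : ℕ) => ∃ x : List Bool × ℕ × Bool, encode x = m ∧ Pi z x := by
    refine US.ex (p := fun z (m : ℕ) (x : List Bool × ℕ × Bool) => encode x = m ∧ Pi z x)
      (US.and (US.of_prim ?_) ?_)
    · exact Primrec.eq.comp (Primrec.encode.comp Primrec.snd) Primrec.fst
    · exact us_Pi.comp Primrec.snd
  refine h1.of_eq fun z m => ?_
  simp [idt]

theorem exists_idt : ∃ f, Primrec f ∧ ∀ z, idt z = Rx f (jump z) := by
  obtain ⟨f, hf, h⟩ := us_idt.to_jump
  refine ⟨fun m => (f m, false), hf.pair (Primrec.const false), fun z => funext fun m => ?_⟩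
  simp only [Rx, Bool.xor_false]
  have h1 := h z m
  cases h2 : idt z m
  · cases h3 : jump z (f m)
    · rfl
    · rw [h1.2 h3] at h2
      cases h2
  · exact (h1.1 h2).symm

theorem idt_le (z : ℕ → Bool) : TLe (idt z) z := by
  rw [tLe_iff_SI]
  have hN : SI z fun m : ℕ => idt z m = false := by
    have h1 : SI z fun m : ℕ =>
        Option.map (fun x => encode x) (decode m : Option (List Bool × ℕ × Bool)) ≠ some m ∨
        ∃ x : List Bool × ℕ × Bool, encode x = m ∧
          ((x.2.1 % 4 = 0 ∧ z (x.2.1 / 4) = !x.2.2) ∨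
            (x.2.1 % 4 = 2 ∧ ¬ x.1[x.2.1 / 4]? = some x.2.2)) := by
      refine SI.or (SI.of_prim (PrimrecPred.not ?_)) (SI.ex (p := fun (m : ℕ)
        (x : List Bool × ℕ × Bool) => encode x = m ∧
          ((x.2.1 % 4 = 0 ∧ z (x.2.1 / 4) = !x.2.2) ∨
            (x.2.1 % 4 = 2 ∧ ¬ x.1[x.2.1 / 4]? = some x.2.2))) (SI.and (SI.of_prim ?_)
              (SI.or (SI.and (SI.of_prim ?_) ?_) (SI.of_prim (PrimrecPred.and ?_ (PrimrecPred.not ?_))))))
      · exact Primrec.eq.comp (Primrec.option_map (Primrec.decode (α := List Bool × ℕ × Bool))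
          (Primrec.encode.comp Primrec.snd)) Primrec.option_some
      · exact Primrec.eq.comp (Primrec.encode.comp Primrec.snd) Primrec.fst
      · exact (primrecPred_mod 4 0).comp (f := fun y : ℕ × List Bool × ℕ × Bool => y.2) Primrec.snd
      · exact SI.query.comp (f := fun y : ℕ × List Bool × ℕ × Bool => (y.2.2.1 / 4, !y.2.2.2))
          ((Primrec.nat_div.comp (Primrec.fst.comp (Primrec.snd.comp Primrec.snd))
            (Primrec.const 4)).pair (Primrec.not.comp (Primrec.snd.comp (Primrec.snd.comp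
              Primrec.snd))))
      · exact (primrecPred_mod 4 2).comp (f := fun y : ℕ × List Bool × ℕ × Bool => y.2) Primrec.snd
      · exact Primrec.eq.comp (Primrec.list_getElem?.comp (Primrec.fst.comp Primrec.snd)
          (Primrec.nat_div.comp (Primrec.fst.comp (Primrec.snd.comp Primrec.snd))
            (Primrec.const 4)))
          (Primrec.option_some.comp (Primrec.snd.comp (Primrec.snd.comp Primrec.snd)))
    refine h1.of_eq fun m => ?_
    unfold idt
    rw [decide_eq_false_iff_not]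
    constructor
    · rintro (h2 | ⟨x, rfl, h2⟩)
      · rintro ⟨x, rfl, -⟩
        rw [encodek] at h2
        exact h2 rfl
      · rintro ⟨y, h3, h4⟩
        rw [encode_inj.1 h3] at h4
        rcases h4 with h4 | ⟨h4, h5⟩ | ⟨h4, h5⟩ <;> rcases h2 with ⟨h2, h6⟩ | ⟨h2, h6⟩
        · omega
        · omega
        · rw [h5] at h6
          cases h7 : x.2.2 <;> rw [h7] at h6 <;> cases h6
        · omega
        · omega
        · exact h6 h5
    · intro h2
      by_cases h3 : ∃ x : List Bool × ℕ × Bool, encode x = m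
      · obtain ⟨x, rfl⟩ := h3
        right
        refine ⟨x, rfl, ?_⟩
        have h4 : ¬ Pi z x := fun h4 => h2 ⟨x, rfl, h4⟩
        unfold Pi at h4
        push Not at h4
        obtain ⟨h5, h6, h7⟩ := h4
        have h8 : x.2.1 % 4 = 0 ∨ x.2.1 % 4 = 2 := by omega
        rcases h8 with h8 | h8
        · left
          refine ⟨h8, ?_⟩
          have := h6 h8
          cases h9 : x.2.2 <;> cases h10 : z (x.2.1 / 4) <;> simp_all
        · exact Or.inr ⟨h8, h7 h8⟩
      · left
        intro h4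
        rw [Option.map_eq_some_iff] at h4
        obtain ⟨x, -, h5⟩ := h4
        exact h3 ⟨x, h5⟩
  have hP : SI z fun m : ℕ => idt z m = true := us_idt.toSI z
  have h2 : SI z fun x : ℕ × Bool => (x.2 = true ∧ idt z x.1 = true) ∨
      (x.2 = false ∧ idt z x.1 = false) := by
    refine SI.or (SI.and (SI.of_prim ?_) ?_) (SI.and (SI.of_prim ?_) ?_)
    · exact Primrec.eq.comp Primrec.snd (Primrec.const true)
    · exact hP.comp Primrec.fst
    · exact Primrec.eq.comp Primrec.snd (Primrec.const false)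
    · exact hN.comp (f := fun x : ℕ × Bool => x.1) Primrec.fst
  refine h2.of_eq fun x => ?_
  rcases x with ⟨m, b⟩
  cases b <;> simp

theorem tab_idt (z : ℕ → Bool) : Tab (idt z) z fun x => x := by
  refine ⟨⟨?_, ?_⟩, ?_⟩
  · intro σ τ i b hst hi
    rw [at_idt] at hi ⊢
    rcases hi with hi | hi | ⟨hi, h2⟩
    · exact Or.inl hi
    · exact Or.inr (Or.inl hi)
    · refine Or.inr (Or.inr ⟨hi, ?_⟩)
      simp only at h2 ⊢
      obtain ⟨ρ, rfl⟩ := hst
      rw [List.getElem?_append_left]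
      · exact h2
      · by_contra hc
        rw [List.getElem?_eq_none (by omega)] at h2
        cases h2
  · intro σ i
    by_cases h1 : i % 2 = 1
    · refine ⟨σ, true, List.prefix_rfl, ?_⟩
      rw [at_idt]
      exact Or.inl h1
    · by_cases h2 : i % 4 = 0
      · refine ⟨σ, z (i / 4), List.prefix_rfl, ?_⟩
        rw [at_idt]
        exact Or.inr (Or.inl ⟨h2, rfl⟩)
      · have h3 : i / 4 < (σ ++ List.replicate (i / 4 + 1) false).length := by
          simp
          omega
        refine ⟨σ ++ List.replicate (i / 4 + 1) false,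
          (σ ++ List.replicate (i / 4 + 1) false)[i / 4], List.prefix_append _ _, ?_⟩
        rw [at_idt]
        refine Or.inr (Or.inr ⟨?_, ?_⟩)
        · simp only
          omega
        · simp only
          exact List.getElem?_eq_getElem h3
  · intro g _ n j b hj'
    rw [at_idt] at hj'
    rcases hj' with hi | ⟨hi, h2⟩ | ⟨hi, h2⟩
    · simp only at hi
      omega
    · simp only at hi h2
      obtain ⟨k, rfl⟩ : ∃ k, j = 2 * k := ⟨j / 2, by omega⟩
      beta_reduce
      rw [join_even, ← h2]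
      congr 1
      omega
    · simp only at hi h2
      obtain ⟨k, rfl⟩ : ∃ k, j = 2 * k + 1 := ⟨j / 2, by omega⟩
      beta_reduce
      rw [join_odd]
      have h3 : 2 * (2 * k + 1) / 4 = k := by omega
      rw [h3] at h2
      by_cases h4 : k < n
      · rw [pre_getElem? _ _ _ h4] at h2
        exact Option.some.inj h2
      · rw [pre_getElem?_none _ _ _ (by omega)] at h2
        cases h2

end Pool.Agent.N620.GP
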