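import Pool.Agent.N620.GP.Fin

set_option autoImplicit false

/-! Uniform reducibility. -/

namespace Pool.Agent.N620.GP

open Encodable Pool.Agent.Helper227
open Pool.Agent.H685R3 (Halt jump_iff s1_Halt US)
open Pool.Agent.N620.WP (J)
open Pool.Agent.N620.RC (cl cl_J Tr)

theorem us_subst {α : Type} [Primcodable α] {p : (ℕ → Bool) → α → Prop} (hp : US p)
    {q : (ℕ → Bool) → ℕ × (ℕ × Bool) → Prop} (hq : US q) :
    ∃ r : (ℕ → Bool) → ℕ × α → Prop, US r ∧ ∀ B e (x : ℕ → Bool),
      (∀ n b, x n = b ↔ q B (e, (n, b))) → ∀ a, p x a ↔ r B (e, a) := by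
  obtain ⟨E, hE, mE, eE⟩ := hp
  refine ⟨fun B y => ∃ σ : List Bool, E (σ, y.2) ∧ ∀ i < σ.length, q B (y.1, (i, σ.getD i false)),
    ?_, fun B e x hx a => ?_⟩
  · refine US.ex (p := fun B (y : ℕ × α) (σ : List Bool) => E (σ, y.2) ∧
      ∀ i < σ.length, q B (y.1, (i, σ.getD i false))) (US.and (US.of_s1 ?_) ?_)
    · exact hE.comp (f := fun y : (ℕ × α) × List Bool => (y.2, y.1.2))
        (Primrec.snd.pair (Primrec.snd.comp Primrec.fst))
    · refine US.all_lt (α := (ℕ × α) × List Bool) (p := fun B y i =>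
        q B (y.1.1, (i, y.2.getD i false))) (f := fun y => y.2.length) ?_
        (Primrec.list_length.comp Primrec.snd)
      exact hq.comp (f := fun y : ((ℕ × α) × List Bool) × ℕ => (y.1.1.1, (y.2, y.1.2.getD y.2 false)))
        ((Primrec.fst.comp (Primrec.fst.comp Primrec.fst)).pair (Primrec.snd.pair
          ((Primrec.list_getD false).comp (Primrec.snd.comp Primrec.fst) Primrec.snd)))
  · rw [eE]
    simp only
    constructor
    · rintro ⟨s, hs⟩
      refine ⟨pre x s, hs, fun i hi => ?_⟩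
      rw [← hx]
      exact (pre_getD x s i false (by simpa using hi)).symm
    · rintro ⟨σ, h1, h2⟩
      refine ⟨σ.length, ?_⟩
      rw [pre_of_forall fun i hi => (hx _ _).2 (h2 i hi)]
      exact h1

/-- `F ι` is computable from `G ι`, uniformly in `ι`. -/
def UR {I : Type} (F G : I → ℕ → Bool) : Prop :=
  ∃ p : (ℕ → Bool) → ℕ × Bool → Prop, US p ∧ ∀ ι n b, F ι n = b ↔ p (G ι) (n, b)

namespace UR

variable {I : Type} {F G H : I → ℕ → Bool}

theorem tLe (h : UR F G) (ι : I) : TLe (F ι) (G ι) := by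
  obtain ⟨p, hp, h1⟩ := h
  rw [tLe_iff_SI]
  exact (hp.toSI (G ι)).of_eq fun x => (h1 ι x.1 x.2).symm

theorem of_rx {f : ℕ → ℕ × Bool} (hf : Primrec f) (h : ∀ ι, F ι = Rx f (G ι)) : UR F G := by
  refine ⟨fun B x => B (f x.1).1 = xor x.2 (f x.1).2, ?_, fun ι n b => ?_⟩
  · exact US.query.comp (f := fun x : ℕ × Bool => ((f x.1).1, xor x.2 (f x.1).2))
      ((Primrec.fst.comp (hf.comp Primrec.fst)).pair (primrec_xor.comp Primrec.snd
        (Primrec.snd.comp (hf.comp Primrec.fst))))
  · rw [h]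
    exact xor_eq_iff _ _ _

theorem of_index {f : ℕ → ℕ} (hf : Primrec f) (h : ∀ ι n, F ι n = G ι (f n)) : UR F G :=
  of_rx (f := fun n => (f n, false)) (hf.pair (Primrec.const false)) fun ι => funext fun n => by
    simp [Rx, h]

theorem refl (F : I → ℕ → Bool) : UR F F := of_index Primrec.id fun _ _ => rfl

theorem trans (h : UR F G) (h' : UR G H) : UR F H := by
  obtain ⟨p, hp, h1⟩ := h
  obtain ⟨q, hq, h2⟩ := h'
  obtain ⟨r, hr, h3⟩ := us_subst hp (q := fun B x => q B x.2) (hq.comp Primrec.snd)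
  refine ⟨fun B a => r B (0, a), hr.comp (f := fun a : ℕ × Bool => (0, a))
    ((Primrec.const 0).pair Primrec.id), fun ι n b => ?_⟩
  rw [h1]
  exact h3 (H ι) 0 (G ι) (fun n b => h2 ι n b) (n, b)

theorem comp {K : Type} (h : UR F G) (k : K → I) : UR (fun κ => F (k κ)) fun κ => G (k κ) := by
  obtain ⟨p, hp, h1⟩ := h
  exact ⟨p, hp, fun κ => h1 (k κ)⟩

theorem jump (h : UR F G) :
    UR (fun ι => Pool.Agent.Helper227.jump (F ι)) fun ι => Pool.Agent.Helper227.jump (G ι) := by
  obtain ⟨p, hp, h1⟩ := h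
  have h2 : US fun B (j : ℕ) => Pool.Agent.Helper227.jump B j = true := by
    have h3 : US fun B (x : ℕ × ℕ × ℕ) => x.2.2 ∈ WE B x.2.1 :=
      us_WE (ψ := fun B _ => B) (US.query.comp (f := fun x : ℕ × ℕ × Bool => (x.2.1, x.2.2))
        ((Primrec.fst.comp Primrec.snd).pair (Primrec.snd.comp Primrec.snd)))
    refine (h3.comp (f := fun j : ℕ => (0, j, j)) ((Primrec.const 0).pair
      (Primrec.id.pair Primrec.id))).of_eq fun B j => ?_
    exact jump_eq_true.symm
  obtain ⟨r, hr, h3⟩ := us_subst h2 (q := fun B x => p B x.2) (hp.comp Primrec.snd)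
  obtain ⟨f, hf, h4⟩ := hr.to_jump
  refine of_index (f := fun j => f (0, j)) (hf.comp ((Primrec.const 0).pair Primrec.id))
    fun ι j => ?_
  have h5 : Pool.Agent.Helper227.jump (F ι) j = true ↔
      Pool.Agent.Helper227.jump (G ι) (f (0, j)) = true :=
    (h3 (G ι) 0 (F ι) (fun n b => h1 ι n b) j).trans (h4 _ _)
  cases h6 : Pool.Agent.Helper227.jump (F ι) j <;>
    cases h7 : Pool.Agent.Helper227.jump (G ι) (f (0, j)) <;> simp_all

theorem to_jump (F : I → ℕ → Bool) : UR F fun ι => Pool.Agent.Helper227.jump (F ι) := by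
  obtain ⟨f, hf, h⟩ := US.query.to_jump
  refine ⟨fun B x => B (f x) = true, US.query.comp (f := fun x : ℕ × Bool => (f x, true))
    (hf.pair (Primrec.const true)), fun ι n b => ?_⟩
  exact h (F ι) (n, b)

theorem join (h : UR F H) (h' : UR G H) :
    UR (fun ι => Pool.Agent.Helper227.join (F ι) (G ι)) H := by
  obtain ⟨p, hp, h1⟩ := h
  obtain ⟨q, hq, h2⟩ := h'
  refine ⟨fun B x => (x.1 % 2 = 0 ∧ p B (x.1 / 2, x.2)) ∨ (¬ x.1 % 2 = 0 ∧ q B (x.1 / 2, x.2)),
    ?_, fun ι n b => ?_⟩
  · have hm : PrimrecPred fun x : ℕ × Bool => x.1 % 2 = 0 :=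
      Primrec.eq.comp (Primrec.nat_mod.comp Primrec.fst (Primrec.const 2)) (Primrec.const 0)
    have hh : Primrec fun x : ℕ × Bool => (x.1 / 2, x.2) :=
      (Primrec.nat_div.comp Primrec.fst (Primrec.const 2)).pair Primrec.snd
    exact US.or (US.and (US.of_prim hm) (hp.comp hh)) (US.and (US.of_prim hm.not) (hq.comp hh))
  · by_cases h3 : n % 2 = 0
    · simp only [Pool.Agent.Helper227.join, h3, if_true, true_and, not_true, false_and, or_false]
      exact h1 ι _ _
    · simp only [Pool.Agent.Helper227.join, h3, if_false, false_and, not_false_iff, true_and,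
        false_or]
      exact h2 ι _ _

theorem left (F G : I → ℕ → Bool) : UR F fun ι => Pool.Agent.Helper227.join (F ι) (G ι) :=
  of_index (f := fun n => 2 * n) (Primrec.nat_mul.comp (Primrec.const 2) Primrec.id)
    fun ι n => (join_even _ _ _).symm

theorem right (F G : I → ℕ → Bool) : UR G fun ι => Pool.Agent.Helper227.join (F ι) (G ι) :=
  of_index (f := fun n => 2 * n + 1) (Primrec.succ.comp (Primrec.nat_mul.comp (Primrec.const 2)
    Primrec.id)) fun ι n => (join_odd _ _ _).symm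

theorem cJ (F : ℕ → I → ℕ → Bool) (n : ℕ) : UR (F n) fun ι => J fun n => F n ι :=
  of_index (f := fun k => Nat.pair n k) (Primrec₂.natPair.comp (Primrec.const n) Primrec.id)
    fun ι k => by simp [J]

open Classical in
theorem J {F G : ℕ → I → ℕ → Bool} (h : ∀ n, UR (F n) (G n)) :
    ∃ c, UR (fun ι => Pool.Agent.N620.WP.J fun n => F n ι)
      fun ι => Pool.Agent.Helper227.join c (Pool.Agent.N620.WP.J fun n => G n ι) := by
  choose p hp h1 using h
  choose E hE mE eE using hp
  let c : ℕ → Bool := fun m => decide (∃ (n : ℕ) (σ : List Bool) (a : ℕ × Bool),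
    encode (n, σ, a) = m ∧ E n (σ, a))
  have hc : ∀ (n : ℕ) (σ : List Bool) (a : ℕ × Bool), c (encode (n, σ, a)) = true ↔ E n (σ, a) := by
    intro n σ a
    simp only [c, decide_eq_true_eq]
    constructor
    · rintro ⟨n', σ', a', h2, h3⟩
      have h4 := encode_inj.1 h2
      simp only [Prod.mk.injEq] at h4
      obtain ⟨rfl, rfl, rfl⟩ := h4
      exact h3
    · intro h2
      exact ⟨n, σ, a, rfl, h2⟩
  refine ⟨c, fun B x => ∃ σ : List Bool, B (2 * encode (x.1.unpair.1, σ, (x.1.unpair.2, x.2))) = true ∧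
    ∀ i < σ.length, B (2 * Nat.pair x.1.unpair.1 i + 1) = σ.getD i false, ?_, fun ι n b => ?_⟩
  · have hu1 : Primrec fun x : ℕ × Bool => x.1.unpair.1 :=
      Primrec.fst.comp (Primrec.unpair.comp Primrec.fst)
    have hu2 : Primrec fun x : ℕ × Bool => x.1.unpair.2 :=
      Primrec.snd.comp (Primrec.unpair.comp Primrec.fst)
    refine US.ex (p := fun B (x : ℕ × Bool) (σ : List Bool) =>
      B (2 * encode (x.1.unpair.1, σ, (x.1.unpair.2, x.2))) = true ∧
      ∀ i < σ.length, B (2 * Nat.pair x.1.unpair.1 i + 1) = σ.getD i false) (US.and ?_ ?_)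
    · exact US.query.comp (f := fun y : (ℕ × Bool) × List Bool =>
        (2 * encode (y.1.1.unpair.1, y.2, (y.1.1.unpair.2, y.1.2)), true))
        ((Primrec.nat_mul.comp (Primrec.const 2) (Primrec.encode.comp ((hu1.comp Primrec.fst).pair
          (Primrec.snd.pair ((hu2.comp Primrec.fst).pair (Primrec.snd.comp Primrec.fst)))))).pair
            (Primrec.const true))
    · refine US.all_lt (α := (ℕ × Bool) × List Bool) (p := fun B y i =>
        B (2 * Nat.pair y.1.1.unpair.1 i + 1) = y.2.getD i false) (f := fun y => y.2.length) ?_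
        (Primrec.list_length.comp Primrec.snd)
      exact US.query.comp (f := fun y : ((ℕ × Bool) × List Bool) × ℕ =>
        (2 * Nat.pair y.1.1.1.unpair.1 y.2 + 1, y.1.2.getD y.2 false))
        ((Primrec.succ.comp (Primrec.nat_mul.comp (Primrec.const 2) (Primrec₂.natPair.comp
          (hu1.comp (Primrec.fst.comp Primrec.fst)) Primrec.snd))).pair
            ((Primrec.list_getD false).comp (Primrec.snd.comp Primrec.fst) Primrec.snd))
  · simp only [join_even, join_odd, hc]
    have h2 := h1 n.unpair.1 ι n.unpair.2 b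
    rw [eE] at h2
    refine Iff.trans h2 ?_
    simp only [Pool.Agent.N620.WP.J, Nat.unpair_pair]
    constructor
    · rintro ⟨s, hs⟩
      exact ⟨_, hs, fun i hi => (pre_getD _ _ _ _ (by simpa using hi)).symm⟩
    · rintro ⟨σ, h3, h4⟩
      refine ⟨σ.length, ?_⟩
      rw [pre_of_forall h4]
      exact h3

theorem Jjump (G : ℕ → I → ℕ → Bool) :
    UR (fun ι => Pool.Agent.N620.WP.J fun n => Pool.Agent.Helper227.jump (G n ι))
      fun ι => Pool.Agent.Helper227.jump (Pool.Agent.N620.WP.J fun n => G n ι) := by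
  obtain ⟨g, hg, h⟩ := jump_cl
  refine of_index (f := fun m => g (m.unpair.1, m.unpair.2)) (hg.comp
    ((Primrec.fst.comp Primrec.unpair).pair (Primrec.snd.comp Primrec.unpair))) fun ι m => ?_
  rw [← h, cl_J]
  rfl

theorem sgJ (e : I → ℕ) (G : ℕ → I → ℕ → Bool) :
    UR (fun ι => Pool.Agent.N620.WP.J fun n => Pool.Agent.Helper227.join (sg (e ι)) (G n ι))
      fun ι => Pool.Agent.Helper227.join (sg (e ι)) (Pool.Agent.N620.WP.J fun n => G n ι) := by
  refine of_index (f := fun m => if m.unpair.2 % 2 = 0 then 2 * (m.unpair.2 / 2) else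
    2 * Nat.pair m.unpair.1 (m.unpair.2 / 2) + 1) ?_ fun ι m => ?_
  · have h2 : Primrec fun m : ℕ => m.unpair.2 := Primrec.snd.comp Primrec.unpair
    have hh : Primrec fun m : ℕ => m.unpair.2 / 2 := Primrec.nat_div.comp h2 (Primrec.const 2)
    refine Primrec.ite ?_ ?_ ?_
    · exact Primrec.eq.comp (Primrec.nat_mod.comp h2 (Primrec.const 2)) (Primrec.const 0)
    · exact Primrec.nat_mul.comp (Primrec.const 2) hh
    · exact Primrec.succ.comp (Primrec.nat_mul.comp (Primrec.const 2) (Primrec₂.natPair.comp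
        (Primrec.fst.comp Primrec.unpair) hh))
  · by_cases h : m.unpair.2 % 2 = 0
    · rw [if_pos h, join_even]
      simp only [Pool.Agent.N620.WP.J, Pool.Agent.Helper227.join, h, if_true]
    · rw [if_neg h, join_odd]
      simp only [Pool.Agent.N620.WP.J, Pool.Agent.Helper227.join, h, if_false, Nat.unpair_pair]

theorem us_sg {q : (ℕ → Bool) → ℕ × ℕ × Bool → Prop} (hq : US q) :
    US fun B (x : ℕ × Bool) => ∃ e : ℕ, B (2 * e) = true ∧ q (odd' B) (e, x.1, x.2) := by
  obtain ⟨r, hr, h⟩ := us_subst hq (q := fun B x => B (2 * x.2.1 + 1) = x.2.2)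
    (US.query.comp (f := fun x : ℕ × (ℕ × Bool) => (2 * x.2.1 + 1, x.2.2))
      ((Primrec.succ.comp (Primrec.nat_mul.comp (Primrec.const 2) (Primrec.fst.comp
        Primrec.snd))).pair (Primrec.snd.comp Primrec.snd)))
  have h1 : US fun B (x : ℕ × Bool) => ∃ e : ℕ, B (2 * e) = true ∧ r B (0, (e, x.1, x.2)) := by
    refine US.ex (p := fun B (x : ℕ × Bool) (e : ℕ) => B (2 * e) = true ∧ r B (0, (e, x.1, x.2)))
      (US.and ?_ ?_)
    · exact US.query.comp (f := fun y : (ℕ × Bool) × ℕ => (2 * y.2, true))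
        ((Primrec.nat_mul.comp (Primrec.const 2) Primrec.snd).pair (Primrec.const true))
    · exact hr.comp (f := fun y : (ℕ × Bool) × ℕ => (0, (y.2, y.1.1, y.1.2)))
        ((Primrec.const 0).pair (Primrec.snd.pair ((Primrec.fst.comp Primrec.fst).pair
          (Primrec.snd.comp Primrec.fst))))
  refine h1.of_eq fun B x => exists_congr fun e => and_congr Iff.rfl ?_
  exact (h B 0 (odd' B) (fun n b => Iff.rfl) _).symm

/-- Reductions uniform in a number. -/
theorem of_sg {e : I → ℕ} {q : (ℕ → Bool) → ℕ × ℕ × Bool → Prop} (hq : US q)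
    (h : ∀ ι n b, F ι n = b ↔ q (G ι) (e ι, n, b)) :
    UR F fun ι => Pool.Agent.Helper227.join (sg (e ι)) (G ι) := by
  refine ⟨_, us_sg hq, fun ι n b => ?_⟩
  simp only [join_even, odd_join]
  rw [h]
  constructor
  · intro h1
    exact ⟨e ι, by simp [sg], h1⟩
  · rintro ⟨e', h1, h2⟩
    have h3 : e' = e ι := by simpa [sg] using h1
    rw [h3] at h2
    exact h2

theorem sgjump (e : I → ℕ) (G : I → ℕ → Bool) :
    UR (fun ι => Pool.Agent.Helper227.jump (Pool.Agent.Helper227.join (sg (e ι)) (G ι)))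
      fun ι => Pool.Agent.Helper227.join (sg (e ι)) (Pool.Agent.Helper227.jump (G ι)) := by
  obtain ⟨g, hg, h⟩ := exists_jump (ψ := fun B e => Pool.Agent.Helper227.join (sg e) B) (by
    have h2 : US fun B (x : ℕ × ℕ × Bool) =>
        (x.2.1 % 2 = 0 ∧ decide (x.2.1 / 2 = x.1) = x.2.2) ∨
        (¬ x.2.1 % 2 = 0 ∧ B (x.2.1 / 2) = x.2.2) := by
      have hm : PrimrecPred fun x : ℕ × ℕ × Bool => x.2.1 % 2 = 0 :=
        Primrec.eq.comp (Primrec.nat_mod.comp (Primrec.fst.comp Primrec.snd) (Primrec.const 2))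
          (Primrec.const 0)
      have hh : Primrec fun x : ℕ × ℕ × Bool => x.2.1 / 2 :=
        Primrec.nat_div.comp (Primrec.fst.comp Primrec.snd) (Primrec.const 2)
      refine US.or (US.of_prim (PrimrecPred.and hm ?_)) (US.and (US.of_prim hm.not) ?_)
      · have h3 : PrimrecPred fun x : ℕ × ℕ × Bool => x.2.1 / 2 = x.1 :=
          Primrec.eq.comp hh Primrec.fst
        exact Primrec.eq.comp h3.decide (Primrec.snd.comp Primrec.snd)
      · exact US.query.comp (f := fun x : ℕ × ℕ × Bool => (x.2.1 / 2, x.2.2))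
          (hh.pair (Primrec.snd.comp Primrec.snd))
    refine h2.of_eq fun B x => ?_
    simp only [Pool.Agent.Helper227.join, sg]
    by_cases h3 : x.2.1 % 2 = 0
    · simp [h3]
    · simp [h3])
  refine of_sg (q := fun B x => B (g (x.1, x.2.1)) = x.2.2) (US.query.comp
    (f := fun x : ℕ × ℕ × Bool => (g (x.1, x.2.1), x.2.2))
    ((hg.comp (Primrec.fst.pair (Primrec.fst.comp Primrec.snd))).pair
      (Primrec.snd.comp Primrec.snd))) fun ι n b => ?_
  simp only
  rw [h]

end UR

end Pool.Agent.N620.GP
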